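import Pool.Agent.P.MP_d44d06_co.Defs

/-! Growing one-legged plane caterpillars on an interval of points. -/

namespace Pool.Agent.P.MP_d44d06_co

/-- Growth of a one-legged caterpillar on the interval `[a, b]` with spine end `h`; the flag says
whether `h` may already carry a leg. -/
inductive Gr (ok : ℕ → ℕ → Prop) : ℕ → ℕ → ℕ → Bool → Prop
  | start (c : ℕ) : Gr ok c c c false
  | legL {a b h : ℕ} : Gr ok (a + 1) b h false → ok a h → Gr ok a b h true
  | legR {a b h : ℕ} : Gr ok a b h false → ok h (b + 1) → Gr ok a (b + 1) h true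
  | spL {a b h : ℕ} {l : Bool} : Gr ok (a + 1) b h l → ok a h → Gr ok a b a false
  | spR {a b h : ℕ} {l : Bool} : Gr ok a b h l → ok h (b + 1) → Gr ok a (b + 1) (b + 1) false
  | byL {a b h : ℕ} {l : Bool} : Gr ok (a + 2) b h l → ok a h → ok a (a + 1) → Gr ok a b a true
  | byR {a b h : ℕ} {l : Bool} : Gr ok a b h l → ok h (b + 2) → ok (b + 1) (b + 2) →
      Gr ok a (b + 2) (b + 2) true

/-- Crossing of the chords `a b` and `c d`, one of the two orders. -/
def Cr (a b c d : ℕ) : Prop := min a b < min c d ∧ min c d < max a b ∧ max a b < max c d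

structure Cat (ok : ℕ → ℕ → Prop) (V : ℕ → Prop) (h : ℕ) (l : Bool) (c : ℕ) (par rk : ℕ → ℕ)
    (t : List ℕ) : Prop where
  hc : V c
  par_mem : ∀ v, V v → v ≠ c → V (par v)
  rk_lt : ∀ v, V v → v ≠ c → rk (par v) < rk v
  ok_e : ∀ v, V v → v ≠ c → (v < par v ∧ ok v (par v)) ∨ (par v < v ∧ ok (par v) v)
  chain : (h :: t).IsChain (fun x y => x ≠ c ∧ par x = y)
  last : (h :: t).getLast (List.cons_ne_nil _ _) = c
  sp_mem : ∀ x ∈ h :: t, V x
  leg_par : ∀ v, V v → v ∉ h :: t → par v ∈ h :: t
  leg_inj : ∀ v w, V v → V w → v ∉ h :: t → w ∉ h :: t → par v = par w → v = w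
  leg_free : l = false → ∀ v, V v → v ∉ h :: t → par v ≠ h
  nocross : ∀ v w, V v → V w → v ≠ c → w ≠ c → ¬ Cr v (par v) w (par w)
  unc : ∀ v, V v → v ≠ c → ¬ (v < h ∧ h < par v) ∧ ¬ (par v < h ∧ h < v)

lemma chain_update {c v y : ℕ} {par : ℕ → ℕ} {L : List ℕ} (hv : v ∉ L)
    (hL : L.IsChain (fun x y => x ≠ c ∧ par x = y)) :
    L.IsChain (fun x z => x ≠ c ∧ Function.update par v y x = z) := by
  induction L with
  | nil => exact List.isChain_nil
  | cons a t ih =>
    cases t with
    | nil => exact List.isChain_singleton _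
    | cons b t =>
      rw [List.isChain_cons_cons] at hL ⊢
      have ha : a ≠ v := fun e => hv (by simp [e])
      refine ⟨⟨hL.1.1, ?_⟩, ih (fun e => hv (List.mem_cons_of_mem _ e)) hL.2⟩
      rw [Function.update_of_ne ha]; exact hL.1.2

lemma Cat.addSpine {ok V h l c par rk t} (C : Cat ok V h l c par rk t) (v : ℕ)
    (hv : (∀ x, V x → v < x) ∨ (∀ x, V x → x < v))
    (hok : (v < h ∧ ok v h) ∨ (h < v ∧ ok h v)) :
    Cat ok (fun x => V x ∨ x = v) v false c (Function.update par v h)
      (Function.update rk v (rk h + 1)) (h :: t) := by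
  have hV : ∀ x, V x → x ≠ v := fun x hx e => by
    rcases hv with hv | hv <;> exact absurd (hv x hx) (by omega)
  have hh : V h := C.sp_mem h (by simp)
  have hvc : v ≠ c := fun e => hV c C.hc e.symm
  have hnot : v ∉ h :: t := fun e => hV v (C.sp_mem v e) rfl
  have up : ∀ x, V x → Function.update par v h x = par x := fun x hx =>
    Function.update_of_ne (hV x hx) _ _
  have ur : ∀ x, V x → Function.update rk v (rk h + 1) x = rk x := fun x hx =>
    Function.update_of_ne (hV x hx) _ _
  have leg : ∀ x, (V x ∨ x = v) → x ∉ v :: h :: t → V x ∧ x ∉ h :: t := fun x hx hn =>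
    ⟨hx.resolve_right fun e => hn (by simp [e]), fun e => hn (List.mem_cons_of_mem _ e)⟩
  refine ⟨Or.inl C.hc, ?_, ?_, ?_, ?_, ?_, ?_, ?_, ?_, ?_, ?_, ?_⟩
  · rintro x (hx | rfl) hc
    · rw [up x hx]; exact Or.inl (C.par_mem x hx hc)
    · simp [hh]
  · rintro x (hx | rfl) hc
    · rw [up x hx, ur x hx, ur _ (C.par_mem x hx hc)]; exact C.rk_lt x hx hc
    · rw [Function.update_self, Function.update_self, ur h hh]; omega
  · rintro x (hx | rfl) hc
    · rw [up x hx]; exact C.ok_e x hx hc
    · rw [Function.update_self]; exact hok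
  · rw [List.isChain_cons_cons]
    exact ⟨⟨hvc, Function.update_self _ _ _⟩, chain_update hnot C.chain⟩
  · rw [List.getLast_cons (List.cons_ne_nil _ _)]; exact C.last
  · intro x hx
    rcases List.mem_cons.1 hx with rfl | hx
    · exact Or.inr rfl
    · exact Or.inl (C.sp_mem x hx)
  · intro x hx hn
    obtain ⟨h1, h2⟩ := leg x hx hn
    rw [up x h1]; exact List.mem_cons_of_mem _ (C.leg_par x h1 h2)
  · intro x y hx hy hn hm e
    obtain ⟨h1, h2⟩ := leg x hx hn
    obtain ⟨h3, h4⟩ := leg y hy hm
    rw [up x h1, up y h3] at e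
    exact C.leg_inj x y h1 h3 h2 h4 e
  · intro _ x hx hn
    obtain ⟨h1, h2⟩ := leg x hx hn
    rw [up x h1]; exact hV _ (C.sp_mem _ (C.leg_par x h1 h2))
  · rintro x y (hx | rfl) (hy | rfl) hxc hyc
    · rw [up x hx, up y hy]; exact C.nocross x y hx hy hxc hyc
    · rw [up x hx, Function.update_self]
      have h1 := C.unc x hx hxc
      have h2 := C.par_mem x hx hxc
      unfold Cr
      rcases hv with hv | hv
      · have := hv x hx; have := hv _ h2; have := hv _ hh; omega
      · have := hv x hx; have := hv _ h2; have := hv _ hh; omega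
    · rw [up y hy, Function.update_self]
      have h1 := C.unc y hy hyc
      have h2 := C.par_mem y hy hyc
      unfold Cr
      rcases hv with hv | hv
      · have := hv y hy; have := hv _ h2; have := hv _ hh; omega
      · have := hv y hy; have := hv _ h2; have := hv _ hh; omega
    · unfold Cr; omega
  · rintro x (hx | rfl) hc
    · rw [up x hx]
      have h2 := C.par_mem x hx hc
      rcases hv with hv | hv
      · have := hv x hx; have := hv _ h2; omega
      · have := hv x hx; have := hv _ h2; omega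
    · omega

lemma Cat.addLeg {ok V h c par rk t} (C : Cat ok V h false c par rk t) (v : ℕ) (hV0 : ¬ V v)
    (hv : (∀ x, V x → v < x) ∨ (∀ x, V x → x < v) ∨ v + 1 = h ∨ h + 1 = v)
    (hok : (v < h ∧ ok v h) ∨ (h < v ∧ ok h v)) :
    Cat ok (fun x => V x ∨ x = v) h true c (Function.update par v h)
      (Function.update rk v (rk h + 1)) t := by
  have hV : ∀ x, V x → x ≠ v := fun x hx e => hV0 (e ▸ hx)
  have hh : V h := C.sp_mem h (by simp)
  have hnot : v ∉ h :: t := fun e => hV v (C.sp_mem v e) rfl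
  have up : ∀ x, V x → Function.update par v h x = par x := fun x hx =>
    Function.update_of_ne (hV x hx) _ _
  have ur : ∀ x, V x → Function.update rk v (rk h + 1) x = rk x := fun x hx =>
    Function.update_of_ne (hV x hx) _ _
  have key : ∀ x, V x → x ≠ c → ¬ Cr x (par x) v h ∧ ¬ Cr v h x (par x) := by
    intro x hx hxc
    have h1 := C.unc x hx hxc
    have h2 := C.par_mem x hx hxc
    have h3 := hV x hx
    have h4 := hV _ h2
    unfold Cr
    rcases hv with hv | hv | hv | hv
    · have := hv x hx; have := hv _ h2; have := hv _ hh; omega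
    · have := hv x hx; have := hv _ h2; have := hv _ hh; omega
    · omega
    · omega
  refine ⟨Or.inl C.hc, ?_, ?_, ?_, chain_update hnot C.chain, C.last,
    fun x hx => Or.inl (C.sp_mem x hx), ?_, ?_, by simp, ?_, ?_⟩
  · rintro x (hx | rfl) hc
    · rw [up x hx]; exact Or.inl (C.par_mem x hx hc)
    · simp [hh]
  · rintro x (hx | rfl) hc
    · rw [up x hx, ur x hx, ur _ (C.par_mem x hx hc)]; exact C.rk_lt x hx hc
    · rw [Function.update_self, Function.update_self, ur h hh]; omega
  · rintro x (hx | rfl) hc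
    · rw [up x hx]; exact C.ok_e x hx hc
    · rw [Function.update_self]; exact hok
  · rintro x (hx | rfl) hn
    · rw [up x hx]; exact C.leg_par x hx hn
    · simp
  · rintro x y (hx | rfl) (hy | rfl) hn hm e
    · rw [up x hx, up y hy] at e; exact C.leg_inj x y hx hy hn hm e
    · rw [up x hx, Function.update_self] at e; exact absurd e (C.leg_free rfl x hx hn)
    · rw [up y hy, Function.update_self] at e; exact absurd e.symm (C.leg_free rfl y hy hm)
    · rfl
  · rintro x y (hx | rfl) (hy | rfl) hxc hyc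
    · rw [up x hx, up y hy]; exact C.nocross x y hx hy hxc hyc
    · rw [up x hx, Function.update_self]; exact (key x hx hxc).1
    · rw [up y hy, Function.update_self]; exact (key y hy hyc).2
    · unfold Cr; omega
  · rintro x (hx | rfl) hc
    · rw [up x hx]; exact C.unc x hx hc
    · rw [Function.update_self]; omega

lemma Cat.congr {ok V W h l c par rk t} (C : Cat ok V h l c par rk t) (e : ∀ x, W x ↔ V x) :
    Cat ok W h l c par rk t := by
  have : W = V := funext fun x => propext (e x)
  rw [this]; exact C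

lemma Gr.cat {ok a b h l} (G : Gr ok a b h l) :
    (a ≤ h ∧ h ≤ b) ∧ ∃ c par rk t, Cat ok (fun x => a ≤ x ∧ x ≤ b) h l c par rk t := by
  induction G with
  | start c =>
    refine ⟨⟨le_rfl, le_rfl⟩, c, id, id, [], ⟨le_rfl, le_rfl⟩, ?_, ?_, ?_,
      List.isChain_singleton _, rfl, ?_, ?_, ?_, ?_, ?_, ?_⟩
    all_goals (intros; simp only [List.mem_singleton, id] at *; try omega)
  | @legL a b h _ hok ih =>
    obtain ⟨hh, c, par, rk, t, C⟩ := ih
    exact ⟨by omega, c, _, _, _, (C.addLeg a (by omega) (Or.inl fun x hx => by omega)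
      (Or.inl ⟨by omega, hok⟩)).congr fun x => by omega⟩
  | @legR a b h _ hok ih =>
    obtain ⟨hh, c, par, rk, t, C⟩ := ih
    exact ⟨by omega, c, _, _, _, (C.addLeg (b + 1) (by omega) (Or.inr (Or.inl fun x hx => by omega))
      (Or.inr ⟨by omega, hok⟩)).congr fun x => by omega⟩
  | @spL a b h l _ hok ih =>
    obtain ⟨hh, c, par, rk, t, C⟩ := ih
    exact ⟨by omega, c, _, _, _, (C.addSpine a (Or.inl fun x hx => by omega)
      (Or.inl ⟨by omega, hok⟩)).congr fun x => by omega⟩
  | @spR a b h l _ hok ih =>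
    obtain ⟨hh, c, par, rk, t, C⟩ := ih
    exact ⟨by omega, c, _, _, _, (C.addSpine (b + 1) (Or.inr fun x hx => by omega)
      (Or.inr ⟨by omega, hok⟩)).congr fun x => by omega⟩
  | @byL a b h l _ hok hok' ih =>
    obtain ⟨hh, c, par, rk, t, C⟩ := ih
    exact ⟨by omega, c, _, _, _, ((C.addSpine a (Or.inl fun x hx => by omega)
      (Or.inl ⟨by omega, hok⟩)).addLeg (a + 1) (by omega) (by omega)
      (Or.inr ⟨by omega, hok'⟩)).congr fun x => by omega⟩
  | @byR a b h l _ hok hok' ih =>
    obtain ⟨hh, c, par, rk, t, C⟩ := ih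
    exact ⟨by omega, c, _, _, _, ((C.addSpine (b + 2) (Or.inr fun x hx => by omega)
      (Or.inr ⟨by omega, hok⟩)).addLeg (b + 1) (by omega) (by omega)
      (Or.inl ⟨by omega, hok'⟩)).congr fun x => by omega⟩

end Pool.Agent.P.MP_d44d06_co
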