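import Mathlib

namespace Pool.Agent.P.MP_d44d06_co

/-- The points are labelled `0, …, m - 1` in their cyclic order; two chords cross exactly when
their end points interleave. A drawing is plane if no two of its edges cross. -/
def Plane {m : ℕ} (G : SimpleGraph (Fin m)) : Prop :=
  ∀ a b c d : Fin m, G.Adj a b → G.Adj c d → ¬ (a < c ∧ c < b ∧ b < d)

/-- A plane drawing in which every point has degree exactly one. -/
def IsPlaneMatching {m : ℕ} (M : SimpleGraph (Fin m)) : Prop :=
  Plane M ∧ ∀ v, ∃! w, M.Adj v w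

/-- The union is plane and there is no common edge. -/
def DisjointCompatible {m : ℕ} (G H : SimpleGraph (Fin m)) : Prop :=
  Plane (G ⊔ H) ∧ ∀ a b, G.Adj a b → ¬ H.Adj a b

/-- A spanning tree with a path (the spine) such that every other edge (a leg) has exactly one
end point on the spine. -/
def IsCaterpillar {m : ℕ} (D : SimpleGraph (Fin m)) : Prop :=
  D.IsTree ∧ ∃ (u v : Fin m) (p : D.Walk u v), p.IsPath ∧
    ∀ x y, D.Adj x y → s(x, y) ∉ p.edges → (x ∈ p.support ↔ y ∉ p.support)

/-- A spanning caterpillar in which every spine vertex is incident to at most one leg. -/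
def IsOneLegged {m : ℕ} (D : SimpleGraph (Fin m)) : Prop :=
  D.IsTree ∧ ∃ (u v : Fin m) (p : D.Walk u v), p.IsPath ∧
    (∀ x y, D.Adj x y → s(x, y) ∉ p.edges → (x ∈ p.support ↔ y ∉ p.support)) ∧
    ∀ x ∈ p.support, ∀ y z, D.Adj x y → D.Adj x z → s(x, y) ∉ p.edges → s(x, z) ∉ p.edges → y = z

/-- The disjoint compatibility graph of the plane perfect matchings of `2 n` points in convex
position, for the family of the plane drawings with property `H`. -/
def DCG (n : ℕ) (H : SimpleGraph (Fin (2 * n)) → Prop) :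
    SimpleGraph {M : SimpleGraph (Fin (2 * n)) // IsPlaneMatching M} where
  Adj M₁ M₂ := M₁ ≠ M₂ ∧ ∃ D, H D ∧ Plane D ∧ DisjointCompatible D M₁.1 ∧ DisjointCompatible D M₂.1
  symm := ⟨fun _ _ ⟨h, D, h1, h2, h3, h4⟩ => ⟨h.symm, D, h1, h2, h4, h3⟩⟩
  loopless := ⟨fun _ h => h.1 rfl⟩

end Pool.Agent.P.MP_d44d06_co
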