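import Pool.Agent.P.MP_d44d06_co.Ladder

/-! Every matching is within two moves of a flower. -/

namespace Pool.Agent.P.MP_d44d06_co

lemma IsFl.val {n op F} (h : IsFl n op F) (x : ℕ) (hx : x < 2 * n) :
    (¬ op (x / 2) ∧ ((x % 2 = 0 ∧ F x = x + 1) ∨ (x % 2 = 1 ∧ F x + 1 = x))) ∨
    (x % 2 = 1 ∧ ∃ k', k' < n ∧ Cons op (x / 2) k' ∧ F x = 2 * k') ∨
    (x % 2 = 0 ∧ ∃ k', Cons op k' (x / 2) ∧ F x = 2 * k' + 1) ∨ x = 0 ∨ x = 2 * n - 1 := by
  by_cases ho : op (x / 2)
  · by_cases h1 : x % 2 = 1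
    · by_cases h2 : x / 2 = n - 1
      · omega
      · obtain ⟨k', a, b⟩ := exists_next ho h.opl (by omega)
        have := h.cons _ k' (by omega) b
        rw [show 2 * (x / 2) + 1 = x by omega] at this
        exact Or.inr (Or.inl ⟨h1, k', by omega, b, this⟩)
    · by_cases h2 : x / 2 = 0
      · omega
      · obtain ⟨k', -, b⟩ := exists_prev ho h.op0 (by omega)
        have := h.pm.symm (by have := b.1; omega) (h.cons _ _ (by omega) b)
        rw [show 2 * (x / 2) = x by omega] at this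
        exact Or.inr (Or.inr (Or.inl ⟨by omega, k', b, this⟩))
  · have a := h.cl _ (by omega) ho
    have b := h.pm.symm (by omega) a
    refine Or.inl ⟨ho, ?_⟩
    by_cases h1 : x % 2 = 1
    · rw [show 2 * (x / 2) + 1 = x by omega] at b; omega
    · rw [show 2 * (x / 2) = x by omega] at a; omega

lemma Cons.le_r {op k k' j} (h : Cons op k k') (hj : op j) (hk : k < j) : k' ≤ j :=
  Nat.le_of_not_lt fun e => h.2.2.2 j hk e hj

lemma Cons.le_l {op k k' j} (h : Cons op k k') (hj : op j) (hk : j < k') : j ≤ k :=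
  Nat.le_of_not_lt fun e => h.2.2.2 j e hk hj

lemma cons_succ {op : ℕ → Prop} {k} (h : op k) (h' : op (k + 1)) : Cons op k (k + 1) :=
  ⟨by omega, h, h', fun i _ _ => by omega⟩

lemma IsFl.arc_even {n op F} (h : IsFl n op F) (hn : 2 ≤ n) (k : ℕ) (hk : k < n) :
    F (2 * k) = 2 * k + 1 ↔ ¬ op k := by
  refine ⟨fun e ho => ?_, h.cl k hk⟩
  have := h.f0
  rcases h.val (2 * k) (by omega) with a | a | ⟨-, k', b, c⟩ | a | a
  · rw [show 2 * k / 2 = k by omega] at a; exact a.1 ho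
  · omega
  · have := b.1; omega
  · rw [a] at e; omega
  · omega

lemma IsFl.arc_odd {n op F} (h : IsFl n op F) (k : ℕ) (hk : k + 1 < n) :
    F (2 * k + 1) = 2 * k + 2 ↔ op k ∧ op (k + 1) := by
  refine ⟨fun e => ?_, fun e => h.cons k (k + 1) hk (cons_succ e.1 e.2)⟩
  rcases h.val (2 * k + 1) (by omega) with a | ⟨-, k', a, b, c⟩ | a | a | a
  · omega
  · rw [show (2 * k + 1) / 2 = k by omega] at b
    obtain rfl : k' = k + 1 := by omega
    exact ⟨b.2.1, b.2.2.1⟩
  all_goals omega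

lemma IsFl.unc {n op F} (h : IsFl n op F) {j : ℕ} (hj : j < n) (ho : op j) :
    Unc F (2 * j + 1) := by
  intro y h1 h2
  rcases h.val y (by omega) with a | ⟨a, k', -, b, c⟩ | ⟨a, k', b, c⟩ | a | a
  · have : y / 2 ≠ j := fun e => a.1 (e ▸ ho)
    omega
  · have := b.le_r ho (by omega); omega
  · have := b.1; omega
  all_goals omega

lemma exists_enum (N : ℕ → Prop) (n : ℕ) : ∃ (K : ℕ) (e : ℕ → ℕ),
    (∀ i, i < K → N (e i) ∧ e i < n) ∧ (∀ i j, i < j → j < K → e i < e j) ∧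
    ∀ x, x < n → N x → ∃ i, i < K ∧ e i = x := by
  induction n with
  | zero => exact ⟨0, id, by omega, by omega, by omega⟩
  | succ n ih =>
    obtain ⟨K, e, h1, h2, h3⟩ := ih
    by_cases h : N n
    · refine ⟨K + 1, fun i => if i = K then n else e i, fun i hi => ?_, fun i j hij hj => ?_,
        fun x hx hN => ?_⟩
      · beta_reduce
        split_ifs with c
        · exact ⟨h, by omega⟩
        · have := h1 i (by omega); exact ⟨this.1, by omega⟩
      · beta_reduce
        rw [if_neg (show ¬ i = K by omega)]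
        split_ifs with c
        · exact (h1 i (by omega)).2
        · exact h2 i j hij (by omega)
      · by_cases c : x = n
        · exact ⟨K, by omega, by simp [c]⟩
        · obtain ⟨i, a, b⟩ := h3 x (by omega) hN
          exact ⟨i, by omega, by beta_reduce; rw [if_neg (by omega)]; exact b⟩
    · refine ⟨K, e, fun i hi => ⟨(h1 i hi).1, by have := (h1 i hi).2; omega⟩, h2, fun x hx hN => ?_⟩
      exact h3 x (by have : x ≠ n := fun c => h (c ▸ hN); omega) hN

lemma to_flower_aux {n f} (hn : 2 ≤ n) (hf : PM (2 * n) f) (f0 : f 0 = 2 * n - 1) {K : ℕ}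
    {e : ℕ → ℕ}
    (h1 : ∀ i, i < K → e i + 1 < n ∧ f (2 * e i) ≠ 2 * e i + 1 ∧
      f (2 * (e i + 1)) ≠ 2 * (e i + 1) + 1 ∧ f (2 * e i + 1) ≠ 2 * e i + 2)
    (h2 : ∀ i j, i < j → j < K → e i < e j)
    (h3 : ∀ x, x + 1 < n → f (2 * x) ≠ 2 * x + 1 → f (2 * (x + 1)) ≠ 2 * (x + 1) + 1 →
      f (2 * x + 1) ≠ 2 * x + 2 → ∃ i, i < K ∧ e i = x)
    (g k : ℕ) (hk : 2 * k ≤ K) (hg0 : g ≠ 0) (hgl : g ≠ n - 1)
    (hge : ∀ t, t < K → (t < k ∨ K - k ≤ t) → e t ≠ g ∧ e t + 1 ≠ g)
    (hgo : ∀ j, j + 1 < n → f (2 * j + 1) = 2 * j + 2 → j ≠ g ∧ j + 1 ≠ g)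
    (hc : 0 < k → e (k - 1) + 1 < e (K - k)) :
    ∃ F A, IsFl n (fun j => f (2 * j) ≠ 2 * j + 1 ∧ j ≠ g) F ∧ PM (2 * n) A ∧ A 0 = 2 * n - 1 ∧
      Reach (2 * n) 1 A F ∧
      (∀ j, j < n → (A (2 * j) = 2 * j + 1 ↔ f (2 * j) = 2 * j + 1 ∨ j = g)) ∧
      (∀ j, j + 1 < n → (A (2 * j + 1) = 2 * j + 2 ↔ f (2 * j + 1) = 2 * j + 2 ∨
        ∃ t, k ≤ t ∧ t < K - k ∧ e t = j ∧ j ≠ g ∧ j + 1 ≠ g)) := by
  have fl := hf.symm (by omega) f0
  obtain ⟨F, hF⟩ := exists_flower (n := n) (by omega)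
    (op := fun j => f (2 * j) ≠ 2 * j + 1 ∧ j ≠ g) ⟨by simp only [mul_zero]; omega, hg0.symm⟩
    ⟨fun c => by
      have := hf.symm (by omega) c
      rw [show 2 * (n - 1) + 1 = 2 * n - 1 by omega] at this; omega, hgl.symm⟩
  have key : ∀ t, t < K → (t < k ∨ K - k ≤ t) → F (2 * e t + 1) = 2 * e t + 1 + 1 ∧
      Unc F (2 * e t + 1) := fun t a b =>
    ⟨(hF.arc_odd _ (h1 t a).1).2 ⟨⟨(h1 t a).2.1, (hge t a b).1⟩, (h1 t a).2.2.1, (hge t a b).2⟩,
      hF.unc (by have := (h1 t a).1; omega) ⟨(h1 t a).2.1, (hge t a b).1⟩⟩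
  obtain ⟨A, hA, A0, hR, hE⟩ := ladder (k := k) hF.pm hF.f0 (fun i => 2 * e (k - 1 - i) + 1)
    (fun i => 2 * e (K - k + i) + 1) (fun i hi => (key _ (by omega) (by omega)).1)
    (fun i hi => (key _ (by omega) (by omega)).1)
    (fun i hi => by have := h2 (k - 1 - (i + 1)) (k - 1 - i) (by omega) (by omega); omega)
    (fun i hi => by have := h2 (K - k + i) (K - k + (i + 1)) (by omega) (by omega); omega)
    (fun a => by have := hc a; simp only [Nat.sub_zero, Nat.add_zero]; omega) (fun i _ => by omega)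
    (fun i hi => by have := (h1 (K - k + i) (by omega)).1; omega)
    (fun i hi => (key _ (by omega) (by omega)).2) (fun i hi => (key _ (by omega) (by omega)).2)
  refine ⟨F, A, hF, hA, A0, hR, fun j hj => ?_, fun j hj => ?_⟩
  · rw [hE, hF.arc_even hn j hj]
    constructor
    · intro c; have := c.1; tauto
    · intro c; exact ⟨by tauto, fun i _ => by omega⟩
  · rw [hE, show 2 * j + 1 + 1 = 2 * j + 2 from rfl, hF.arc_odd j hj]
    constructor
    · rintro ⟨⟨c1, c2⟩, c3⟩
      by_cases c : f (2 * j + 1) = 2 * j + 2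
      · exact Or.inl c
      obtain ⟨t, a, b⟩ := h3 j hj c1.1 c2.1 c
      refine Or.inr ⟨t, ?_, ?_, b, c1.2, c2.2⟩
      · by_contra d
        have := (c3 (k - 1 - t) (by omega)).1
        rw [show k - 1 - (k - 1 - t) = t by omega] at this; omega
      · by_contra d
        have := (c3 (t - (K - k)) (by omega)).2
        rw [show K - k + (t - (K - k)) = t by omega] at this; omega
    · rintro (c | ⟨t, a, b, rfl, c, d⟩)
      · have c' := hf.symm (by omega) c
        refine ⟨⟨⟨fun d => ?_, (hgo j hj c).1⟩, ?_, (hgo j hj c).2⟩, fun i hi => ⟨fun d => ?_,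
          fun d => ?_⟩⟩
        · have := hf.symm (by omega) d; omega
        · rw [show 2 * (j + 1) = 2 * j + 2 by omega]; omega
        · exact (h1 (k - 1 - i) (by omega)).2.2.2 (by rw [show e (k - 1 - i) = j by omega]; exact c)
        · exact (h1 (K - k + i) (by omega)).2.2.2 (by rw [show e (K - k + i) = j by omega]; exact c)
      · refine ⟨⟨⟨(h1 t (by omega)).2.1, c⟩, (h1 t (by omega)).2.2.1, d⟩, fun i hi => ⟨?_, ?_⟩⟩
        · have := h2 (k - 1 - i) t (by omega) (by omega); omega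
        · have := h2 t (K - k + i) (by omega) (by omega); omega

lemma arcs_of {n : ℕ} {f A : ℕ → ℕ} (p : ℕ)
    (h1 : ∀ j, j < n → 2 * j ≠ p → (A (2 * j) = 2 * j + 1 ↔ f (2 * j) = 2 * j + 1))
    (h2 : ∀ j, j + 1 < n → 2 * j + 1 ≠ p →
      (A (2 * j + 1) = 2 * j + 2 ↔ f (2 * j + 1) = 2 * j + 2)) :
    ∀ i, i ≠ p → i + 1 < 2 * n → (f i = i + 1 ↔ A i = i + 1) := by
  intro i a b
  obtain ⟨j, rfl | rfl⟩ := Nat.even_or_odd' i
  · exact (h1 j (by omega) a).symm
  · exact (h2 j (by omega) a).symm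

theorem to_flower {n f} (hn : 2 ≤ n) (hf : PM (2 * n) f) (f0 : f 0 = 2 * n - 1) :
    ∃ op F g, IsFl n op F ∧ Reach (2 * n) 2 f F ∧
      ∀ j, op j ↔ (f (2 * j) ≠ 2 * j + 1 ∧ j ≠ g) := by
  obtain ⟨K, e, h1, h2, h3⟩ := exists_enum (fun x => x + 1 < n ∧ f (2 * x) ≠ 2 * x + 1 ∧
    f (2 * (x + 1)) ≠ 2 * (x + 1) + 1 ∧ f (2 * x + 1) ≠ 2 * x + 2) n
  have aux := to_flower_aux hn hf f0 (fun i hi => (h1 i hi).1) h2
    fun x a b c d => h3 x (by omega) ⟨a, b, c, d⟩
  have hlt : ∀ t, t < K → e t + 1 < n := fun t ht => (h1 t ht).1.1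
  obtain ⟨k, rfl | rfl⟩ := Nat.even_or_odd' K
  · by_cases hc : 0 < k → e (k - 1) + 1 < e (2 * k - k)
    · obtain ⟨F, A, hF, hA, A0, hR, a1, a2⟩ := aux n k le_rfl (by omega) (by omega)
        (fun t a _ => by have := hlt t a; omega) (fun j a _ => by omega) hc
      refine ⟨_, F, n, hF, .step hA (near_same (by omega) hf hA (fun i _ b => ?_) (by omega)) hR,
        fun _ => Iff.rfl⟩
      refine arcs_of (n := n) (2 * n) (fun j c _ => ?_) (fun j c _ => ?_) i (by omega) (by omega)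
      · rw [a1 j c]; exact or_iff_left (by omega)
      · rw [a2 j c]; exact or_iff_left (by omega)
    · obtain ⟨k, rfl⟩ : ∃ j, k = j + 1 := ⟨k - 1, by omega⟩
      rw [show k + 1 - 1 = k by omega, show 2 * (k + 1) - (k + 1) = k + 1 by omega] at hc
      have b1 := h2 k (k + 1) (by omega) (by omega)
      have b2 : e (k + 1) = e k + 1 := by omega
      have b3 := hlt (k + 1) (by omega)
      obtain ⟨F, A, hF, hA, A0, hR, a1, a2⟩ := aux (e k + 1) k (by omega) (by omega) (by omega)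
        (fun t a b => by
          rcases b with b | b
          · have := h2 t k b (by omega); omega
          · have := h2 (k + 1) t (by omega) a; omega)
        (fun j a b => ⟨fun c => (h1 (k + 1) (by omega)).1.2.2.2 (by rw [b2, ← c]; exact b),
          fun c => (h1 k (by omega)).1.2.2.2 (by rw [show e k = j by omega]; exact b)⟩)
        (fun a => by
          have := h2 (k - 1) k (by omega) (by omega)
          have := h2 k (2 * (k + 1) - k) (by omega) (by omega)
          omega)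
      refine ⟨_, F, _, hF, .step hA (near_gap (p := 2 * (e k + 1)) (by omega) hf hA f0 A0 (by omega)
        ((a1 _ (by omega)).2 (Or.inr rfl))
        (arcs_of _ (fun j c d => ?_) fun j c _ => ?_)) hR, fun _ => Iff.rfl⟩
      · rw [a1 j c]; exact or_iff_left (by omega)
      · rw [a2 j c]
        refine or_iff_left ?_
        rintro ⟨t, c1, c2, c3, c4, c5⟩
        obtain rfl | rfl : t = k ∨ t = k + 1 := by omega
        all_goals omega
  · have b3 := hlt k (by omega)
    obtain ⟨F, A, hF, hA, A0, hR, a1, a2⟩ := aux n k (by omega) (by omega) (by omega)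
      (fun t a _ => by have := hlt t a; omega) (fun j a _ => by omega)
      (fun a => by
        have := h2 (k - 1) k (by omega) (by omega)
        have := h2 k (2 * k + 1 - k) (by omega) (by omega)
        omega)
    refine ⟨_, F, _, hF, .step hA (near_gap (p := 2 * e k + 1) (by omega) hf hA f0 A0 (by omega)
      ((a2 _ b3).2 (Or.inr ⟨k, le_rfl, by omega, rfl, by omega, by omega⟩))
      (arcs_of _ (fun j c _ => ?_) fun j c d => ?_)) hR, fun _ => Iff.rfl⟩
    · rw [a1 j c]; exact or_iff_left (by omega)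
    · rw [a2 j c]
      refine or_iff_left ?_
      rintro ⟨t, c1, c2, c3, -⟩
      obtain rfl : t = k := by omega
      omega

end Pool.Agent.P.MP_d44d06_co
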