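import Pool.Agent.P.MP_d44d06_co.Build

/-! From the growth process to graphs; rotations. -/

namespace Pool.Agent.P.MP_d44d06_co

open SimpleGraph

/-- The graph of a parent function. -/
def parG (m c : ℕ) (par rk : ℕ → ℕ) (hr : ∀ v, v < m → v ≠ c → rk (par v) < rk v) :
    SimpleGraph (Fin m) where
  Adj x y := (x.1 ≠ c ∧ par x = y) ∨ (y.1 ≠ c ∧ par y = x)
  symm := ⟨fun _ _ h => h.symm⟩
  loopless := ⟨fun x h => by
    have : x.1 ≠ c ∧ par x = x := by tauto
    have h2 := hr x x.2 this.1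
    rw [this.2] at h2; omega⟩

section
variable {m c : ℕ} {par rk : ℕ → ℕ} (hr : ∀ v, v < m → v ≠ c → rk (par v) < rk v)

lemma parG_tree (hc : c < m) (hp : ∀ v, v < m → v ≠ c → par v < m) :
    (parG m c par rk hr).IsTree := by
  refine ⟨?_, ?_⟩
  · have : ∀ k (x : Fin m), rk x = k → (parG m c par rk hr).Reachable x ⟨c, hc⟩ := by
      intro k
      induction k using Nat.strong_induction_on with
      | _ k ih =>
        intro x hx
        by_cases e : x.1 = c
        · have : x = ⟨c, hc⟩ := Fin.ext e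
          rw [this]
        · have h1 : (parG m c par rk hr).Adj x ⟨par x, hp x x.2 e⟩ := Or.inl ⟨e, rfl⟩
          exact h1.reachable.trans (ih _ (hx ▸ hr x x.2 e) _ rfl)
    have hne : Nonempty (Fin m) := ⟨⟨c, hc⟩⟩
    exact ⟨fun x y => (this _ x rfl).trans (this _ y rfl).symm⟩
  · intro v p hp'
    obtain ⟨x, hx, hmax⟩ := p.support.toFinset.exists_max_image (fun y => rk y)
      ⟨v, by simp⟩
    have hx' : x ∈ p.support := by simpa using hx
    have h2 := hp'.ncard_neighborSet_toSubgraph_eq_two hx'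
    obtain ⟨y, z, hyz, hs⟩ := Set.ncard_eq_two.1 h2
    have key : ∀ w, w ∈ p.toSubgraph.neighborSet x → par x = w := by
      intro w hw
      have ha : p.toSubgraph.Adj x w := hw
      have hw' : w ∈ p.support := p.mem_verts_toSubgraph.1 ha.snd_mem
      rcases ha.adj_sub with h | h
      · exact h.2
      · have h3 := hr w w.2 h.1
        have h4 := hmax w (by simpa using hw')
        rw [h.2] at h3
        exact absurd h4 (by simpa using h3)
    have e1 := key y (by rw [hs]; simp)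
    have e2 := key z (by rw [hs]; simp)
    exact hyz (Fin.ext (e1.symm.trans e2))

lemma parG_walk (hc : c < m) : ∀ (t : List ℕ) (x : ℕ) (hx : x < m), (∀ y ∈ x :: t, y < m) →
    (x :: t).IsChain (fun x y => x ≠ c ∧ par x = y) →
    (x :: t).getLast (List.cons_ne_nil _ _) = c →
    ∃ p : (parG m c par rk hr).Walk ⟨x, hx⟩ ⟨c, hc⟩, p.IsPath ∧
      (∀ y : Fin m, y ∈ p.support ↔ y.1 ∈ x :: t) ∧ (∀ y ∈ t, rk y < rk x) ∧
      ∀ y z : Fin m, y.1 ∈ x :: t → y.1 ≠ c → par y = z → s(y, z) ∈ p.edges := by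
  intro t
  induction t with
  | nil =>
    intro x hx _ _ hl
    have e : x = c := hl
    subst e
    refine ⟨Walk.nil, Walk.IsPath.nil, fun y => ?_, by simp, fun y z h1 h2 => ?_⟩
    · simp [Fin.ext_iff]
    · simp at h1; exact absurd h1 h2
  | cons a t ih =>
    intro x hx hm hch hl
    rw [List.isChain_cons_cons] at hch
    have ha : a < m := hm a (by simp)
    obtain ⟨p, h1, h2, h3, h4⟩ := ih a ha (fun y hy => hm y (List.mem_cons_of_mem _ hy)) hch.2
      (by rw [List.getLast_cons (List.cons_ne_nil _ _)] at hl; exact hl)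
    have hadj : (parG m c par rk hr).Adj ⟨x, hx⟩ ⟨a, ha⟩ := Or.inl hch.1
    have hlt : ∀ y ∈ a :: t, rk y < rk x := by
      have := hr x hx hch.1.1
      rw [hch.1.2] at this
      intro y hy
      rcases List.mem_cons.1 hy with rfl | hy
      · exact this
      · exact (h3 y hy).trans this
    refine ⟨Walk.cons hadj p, ?_, fun y => ?_, hlt, fun y z hy hyc e => ?_⟩
    · rw [Walk.cons_isPath_iff]
      exact ⟨h1, fun e => absurd (hlt x ((h2 _).1 e)) (lt_irrefl _)⟩
    · rw [Walk.support_cons, List.mem_cons, h2, List.mem_cons (a := y.1) (b := x), Fin.ext_iff]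
    · rw [Walk.edges_cons, List.mem_cons]
      rcases List.mem_cons.1 hy with e' | hy
      · left
        have e1 : y = ⟨x, hx⟩ := Fin.ext e'
        have e2 : z = ⟨a, ha⟩ := Fin.ext (by rw [← e, e']; exact hch.1.2)
        rw [e1, e2]
      · exact Or.inr (h4 y z hy hyc e)
end

theorem Gr.sound {ok : ℕ → ℕ → Prop} {m h : ℕ} {l : Bool} (hm : 0 < m) (G : Gr ok 0 (m - 1) h l) :
    ∃ D : SimpleGraph (Fin m), IsOneLegged D ∧ Plane D ∧
      ∀ x y : Fin m, D.Adj x y → x < y → ok x y := by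
  obtain ⟨hh, c, par, rk, t, C0⟩ := G.cat
  have C : Cat ok (fun x => x < m) h l c par rk t := C0.congr fun x => by omega
  obtain ⟨p, h1, h2, -, h4⟩ := parG_walk C.rk_lt C.hc t h (by omega) C.sp_mem C.chain C.last
  have hcm : c ∈ h :: t := C.last ▸ List.getLast_mem _
  refine ⟨parG m c par rk C.rk_lt, ⟨parG_tree _ C.hc C.par_mem, _, _, p, h1, ?_, ?_⟩, ?_, ?_⟩
  · intro x y hxy he
    rw [h2, h2]
    rcases hxy with hxy | hxy
    · have : x.1 ∉ h :: t := fun e => he (h4 x y e hxy.1 hxy.2)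
      have h5 := C.leg_par x x.2 this
      rw [hxy.2] at h5
      tauto
    · have : y.1 ∉ h :: t := fun e => he (Sym2.eq_swap ▸ h4 y x e hxy.1 hxy.2)
      have h5 := C.leg_par y y.2 this
      rw [hxy.2] at h5
      tauto
  · intro x hx y z hy hz ey ez
    rw [h2] at hx
    have key : ∀ w : Fin m, (parG m c par rk C.rk_lt).Adj x w → s(x, w) ∉ p.edges →
        w.1 ∉ h :: t ∧ par w = x := by
      intro w hw ew
      rcases hw with hw | hw
      · exact absurd (h4 x w hx hw.1 hw.2) ew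
      · exact ⟨fun e => ew (Sym2.eq_swap ▸ h4 w x e hw.1 hw.2), hw.2⟩
    obtain ⟨a1, a2⟩ := key y hy ey
    obtain ⟨a3, a4⟩ := key z hz ez
    exact Fin.ext (C.leg_inj y z y.2 z.2 a1 a3 (a2.trans a4.symm))
  · rintro a b c' d hab hcd ⟨e1, e2, e3⟩
    rw [Fin.lt_def] at e1 e2 e3
    rcases hab with hab | hab <;> rcases hcd with hcd | hcd <;>
    · refine C.nocross _ _ (Fin.is_lt _) (Fin.is_lt _) hab.1 hcd.1 ?_
      rw [hab.2, hcd.2]; unfold Cr; omega
  · intro x y hxy hlt
    rw [Fin.lt_def] at hlt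
    rcases hxy with hxy | hxy
    · have := C.ok_e x x.2 hxy.1
      rw [hxy.2] at this
      exact (this.resolve_right (by omega)).2
    · have := C.ok_e y y.2 hxy.1
      rw [hxy.2] at this
      exact (this.resolve_left (by omega)).2

/-- A plane perfect matching given by the partner function. -/
structure PM (m : ℕ) (f : ℕ → ℕ) : Prop where
  lt : ∀ i, i < m → f i < m
  inv : ∀ i, i < m → f (f i) = i
  ne : ∀ i, i < m → f i ≠ i
  nc : ∀ i j, i < m → j < m → ¬ (i < j ∧ j < f i ∧ f i < f j)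

/-- The chord `u v` is no edge of the matching and is not crossed by it. -/
def OK (f : ℕ → ℕ) (u v : ℕ) : Prop := f u ≠ v ∧ ∀ i, u < i → i < v → u ≤ f i ∧ f i ≤ v

def OK2 (f g : ℕ → ℕ) (u v : ℕ) : Prop := OK f u v ∧ OK g u v

def toG (m : ℕ) (f : ℕ → ℕ) : SimpleGraph (Fin m) := SimpleGraph.fromRel fun x y => f x = y

lemma PM.adj {m f} (h : PM m f) (x y : Fin m) : (toG m f).Adj x y ↔ f x = y := by
  rw [toG, fromRel_adj]
  constructor
  · rintro ⟨-, e | e⟩
    · exact e
    · rw [← e]; exact h.inv y y.2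
  · intro e
    refine ⟨fun e' => h.ne x x.2 (by rw [e, e']), Or.inl e⟩

lemma PM.plane {m f} (h : PM m f) : Plane (toG m f) := by
  rintro a b c d hab hcd ⟨e1, e2, e3⟩
  rw [h.adj] at hab hcd
  rw [Fin.lt_def] at e1 e2 e3
  exact h.nc a c a.2 c.2 (by omega)

lemma PM.matching {m f} (h : PM m f) : IsPlaneMatching (toG m f) :=
  ⟨h.plane, fun v => ⟨⟨f v, h.lt v v.2⟩, (h.adj _ _).2 rfl, fun _ hw =>
    Fin.ext ((h.adj _ _).1 hw).symm⟩⟩

lemma exists_PM {m} {M : SimpleGraph (Fin m)} (h : IsPlaneMatching M) :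
    ∃ f, PM m f ∧ toG m f = M := by
  choose g hg hu using h.2
  let f : ℕ → ℕ := fun i => if hi : i < m then (g ⟨i, hi⟩).1 else 0
  have hf : ∀ x : Fin m, f x = g x := fun x => by simp [f]
  have hf' : ∀ i (hi : i < m), f i = g ⟨i, hi⟩ := fun i hi => hf ⟨i, hi⟩
  have P : PM m f := by
    refine ⟨fun i hi => ?_, fun i hi => ?_, fun i hi e => ?_, fun i j hi hj e => ?_⟩
    · rw [hf' i hi]; exact Fin.is_lt _
    · rw [hf' i hi, hf, ← hu _ _ (hg ⟨i, hi⟩).symm]
    · rw [hf' i hi] at e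
      exact (hg ⟨i, hi⟩).ne (Fin.ext e.symm)
    · rw [hf' i hi, hf' j hj] at e
      exact h.1 _ _ _ _ (hg ⟨i, hi⟩) (hg ⟨j, hj⟩) e
  refine ⟨f, P, ?_⟩
  ext x y
  rw [P.adj, hf]
  exact ⟨fun e => (Fin.ext e : g x = y) ▸ hg x, fun e => by rw [← hu x y e]⟩

lemma compat_of_ok {m f} (h : PM m f) {D : SimpleGraph (Fin m)} (hD : Plane D)
    (hok : ∀ x y : Fin m, D.Adj x y → x < y → OK f x y) : DisjointCompatible D (toG m f) := by
  refine ⟨?_, fun a b hab e => ?_⟩
  · rintro a b c d hab hcd ⟨e1, e2, e3⟩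
    rcases hab with hab | hab <;> rcases hcd with hcd | hcd
    · exact hD a b c d hab hcd ⟨e1, e2, e3⟩
    · have := (hok a b hab (e1.trans e2)).2 c e1 e2
      rw [(h.adj _ _).1 hcd] at this
      exact absurd e3 (by rw [Fin.lt_def]; omega)
    · have := (hok c d hcd (e2.trans e3)).2 b e2 e3
      rw [(h.adj _ _).1 hab.symm] at this
      exact absurd e1 (by rw [Fin.lt_def]; omega)
    · exact h.plane a b c d hab hcd ⟨e1, e2, e3⟩
  · rcases lt_trichotomy a b with hl | hl | hl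
    · exact (hok a b hab hl).1 ((h.adj _ _).1 e)
    · exact hab.ne hl
    · exact (hok b a hab.symm hl).1 ((h.adj _ _).1 e.symm)

/-- Some one-legged plane caterpillar is disjoint compatible with both matchings. -/
def Near (m : ℕ) (f g : ℕ → ℕ) : Prop :=
  ∃ D : SimpleGraph (Fin m), IsOneLegged D ∧ Plane D ∧ DisjointCompatible D (toG m f) ∧
    DisjointCompatible D (toG m g)

lemma Gr.near {m f g h l} (hm : 0 < m) (hf : PM m f) (hg : PM m g)
    (G : Gr (OK2 f g) 0 (m - 1) h l) : Near m f g := by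
  obtain ⟨D, h1, h2, h3⟩ := G.sound hm
  exact ⟨D, h1, h2, compat_of_ok hf h2 fun x y e e' => (h3 x y e e').1,
    compat_of_ok hg h2 fun x y e e' => (h3 x y e e').2⟩

lemma Near.symm {m f g} (h : Near m f g) : Near m g f :=
  let ⟨D, h1, h2, h3, h4⟩ := h; ⟨D, h1, h2, h4, h3⟩

lemma toG_congr {m f g} (h : ∀ i, i < m → f i = g i) : toG m f = toG m g := by
  unfold toG; congr 1; ext x y; rw [h x x.2]

/-- Rotation of the labels. -/
def sh (m r i : ℕ) : ℕ := if i + r < m then i + r else i + r - m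

/-- The matching seen from the point `r`. -/
def rot (m r : ℕ) (f : ℕ → ℕ) (i : ℕ) : ℕ := sh m (m - r) (f (sh m r i))

lemma sh_lt {m r i} (hr : r ≤ m) (hi : i < m) : sh m r i < m := by unfold sh; split_ifs <;> omega

lemma sh_sh {m r i} (hr : r ≤ m) (hi : i < m) : sh m r (sh m (m - r) i) = i := by
  unfold sh; split_ifs <;> omega

lemma sh_sh' {m r i} (hr : r ≤ m) (hi : i < m) : sh m (m - r) (sh m r i) = i := by
  unfold sh; split_ifs <;> omega

lemma PM.rot {m f r} (h : PM m f) (hr : r ≤ m) : PM m (rot m r f) := by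
  refine ⟨fun i hi => sh_lt (by omega) (h.lt _ (sh_lt hr hi)), fun i hi => ?_, fun i hi e => ?_,
    fun i j hi hj e => ?_⟩
  · unfold MP_d44d06_co.rot
    rw [sh_sh hr (h.lt _ (sh_lt hr hi)), h.inv _ (sh_lt hr hi), sh_sh' hr hi]
  · unfold MP_d44d06_co.rot at e
    have := congrArg (sh m r) e
    rw [sh_sh hr (h.lt _ (sh_lt hr hi))] at this
    exact h.ne _ (sh_lt hr hi) this
  · unfold MP_d44d06_co.rot at e
    have a1 := sh_lt hr hi
    have a2 := sh_lt hr hj
    have b1 := h.lt _ a1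
    have b2 := h.lt _ a2
    have c1 := h.nc _ _ a1 a2
    have c2 := h.nc _ _ a2 b1
    have c3 := h.nc _ _ b1 b2
    have c4 := h.nc _ _ b2 a1
    rw [h.inv _ a1] at c2 c3
    rw [h.inv _ a2] at c3 c4
    generalize f (sh m r i) = x at *
    generalize f (sh m r j) = y at *
    unfold sh at *
    split_ifs at * <;> omega

def shE (m r : ℕ) (hr : r ≤ m) : Fin m ≃ Fin m where
  toFun x := ⟨sh m r x, sh_lt hr x.2⟩
  invFun x := ⟨sh m (m - r) x, sh_lt (by omega) x.2⟩
  left_inv x := Fin.ext (sh_sh' hr x.2)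
  right_inv x := Fin.ext (sh_sh hr x.2)

lemma Plane.comap_sh {m r} (hr : r ≤ m) {G : SimpleGraph (Fin m)} (h : Plane G) :
    Plane (G.comap (shE m r hr).symm) := by
  rintro a b c d hab hcd ⟨e1, e2, e3⟩
  have c1 := h _ _ _ _ hab hcd
  have c2 := h _ _ _ _ hcd hab.symm
  have c3 := h _ _ _ _ hab.symm hcd.symm
  have c4 := h _ _ _ _ hcd.symm hab
  have := a.2; have := b.2; have := c.2; have := d.2
  simp only [Fin.lt_def, shE, Equiv.coe_fn_symm_mk, sh] at *
  split_ifs at * <;> omega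

lemma IsOneLegged.comap {m} (σ : Fin m ≃ Fin m) {D : SimpleGraph (Fin m)} (h : IsOneLegged D) :
    IsOneLegged (D.comap σ.symm) := by
  obtain ⟨h0, u, v, p, h1, h2, h3⟩ := h
  let φ : D ≃g D.comap σ.symm := (Iso.comap σ.symm D).symm
  have hφ : ∀ x, φ x = σ x := fun x => rfl
  have hs : ∀ x, x ∈ (p.map φ.toHom).support ↔ σ.symm x ∈ p.support := by
    intro x
    rw [Walk.support_map, List.mem_map]
    constructor
    · rintro ⟨y, hy, rfl⟩
      have : σ.symm (φ.toHom y) = y := σ.symm_apply_apply y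
      rwa [this]
    · intro hx; exact ⟨_, hx, σ.apply_symm_apply x⟩
  have he : ∀ x y, s(σ.symm x, σ.symm y) ∈ p.edges → s(x, y) ∈ (p.map φ.toHom).edges := by
    intro x y hxy
    rw [Walk.edges_map, List.mem_map]
    refine ⟨_, hxy, ?_⟩
    rw [Sym2.map_mk]
    have a1 : φ.toHom (σ.symm x) = x := σ.apply_symm_apply x
    have a2 : φ.toHom (σ.symm y) = y := σ.apply_symm_apply y
    rw [a1, a2]
  refine ⟨φ.isTree_iff.1 h0, _, _, p.map φ.toHom,
    h1.map φ.injective, fun x y hxy hn => ?_,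
    fun x hx y z hy hz ey ez => ?_⟩
  · rw [hs, hs]; exact h2 _ _ hxy fun e => hn (he x y e)
  · exact σ.symm.injective (h3 _ ((hs x).1 hx) _ _ hy hz (fun e => ey (he _ _ e))
      fun e => ez (he _ _ e))

lemma toG_rot {m f r} (h : PM m f) (hr : r ≤ m) :
    (toG m (rot m r f)).comap (shE m r hr).symm = toG m f := by
  ext x y
  rw [comap_adj, (h.rot hr).adj, h.adj]
  change sh m (m - r) (f (sh m r (sh m (m - r) x))) = sh m (m - r) y ↔ _
  rw [sh_sh hr x.2]
  refine ⟨fun e => ?_, fun e => by rw [e]⟩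
  have := congrArg (sh m r) e
  rwa [sh_sh hr (h.lt _ x.2), sh_sh hr y.2] at this

lemma DisjointCompatible.comap_sh {m r} (hr : r ≤ m) {G H : SimpleGraph (Fin m)}
    (h : DisjointCompatible G H) :
    DisjointCompatible (G.comap (shE m r hr).symm) (H.comap (shE m r hr).symm) :=
  ⟨h.1.comap_sh hr, fun _ _ e => h.2 _ _ e⟩

lemma Near.of_rot {m f g r} (hf : PM m f) (hg : PM m g) (hr : r ≤ m)
    (h : Near m (rot m r f) (rot m r g)) : Near m f g := by
  obtain ⟨D, h1, h2, h3, h4⟩ := h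
  refine ⟨D.comap (shE m r hr).symm, h1.comap _, h2.comap_sh hr, ?_, ?_⟩
  · rw [← toG_rot hf hr]; exact h3.comap_sh hr
  · rw [← toG_rot hg hr]; exact h4.comap_sh hr

end Pool.Agent.P.MP_d44d06_co
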