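import Pool.Agent.P.MP_d44d06_co.Moves

/-! The ladder move and flowers. -/

namespace Pool.Agent.P.MP_d44d06_co

/-- No edge other than the outer one passes over `x`. -/
def Unc (h : ℕ → ℕ) (x : ℕ) : Prop := ∀ j, 0 < j → j < x → h j < x

lemma unc_gt {m h x} (hh : PM m h) (h0 : h 0 = m - 1) (hx : h x = x + 1) (hm : x < m)
    (hu : Unc h x) (j : ℕ) (h1 : x + 1 < j) (h2 : j + 1 < m) : x + 1 < h j := by
  by_contra hn
  have a1 := hh.inv j (by omega)
  have a2 := hh.symm hm hx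
  by_cases e : h j = x
  · rw [e] at a1; omega
  by_cases e' : h j = x + 1
  · rw [e'] at a1; omega
  by_cases e'' : h j = 0
  · rw [e''] at a1; omega
  have := hu (h j) (by omega) (by omega)
  omega

lemma PM.swap {m f x y} (hf : PM m f) (hy : y + 1 < m) (hxy : x + 1 < y) (fx : f x = x + 1)
    (fy : f y = y + 1) (ci : ∀ j, x + 1 < j → j < y → x + 1 < f j ∧ f j < y) :
    ∃ g, PM m g ∧ g x = y + 1 ∧ g (x + 1) = y ∧
      ∀ j, j ≠ x → j ≠ x + 1 → j ≠ y → j ≠ y + 1 → g j = f j := by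
  have a1 := hf.symm (by omega) fx
  have a2 := hf.symm (by omega) fy
  let φ : ℕ → ℕ := fun j => if j = x then y + 1 else if j = x + 1 then y else if j = y then x + 1
    else if j = y + 1 then x else f j
  have p1 : φ x = y + 1 := by simp [φ]
  have p2 : φ (x + 1) = y := by simp [φ]
  have p3 : φ y = x + 1 := by
    simp only [φ]; rw [if_neg (by omega), if_neg (by omega)]; simp
  have p4 : φ (y + 1) = x := by
    simp only [φ]; rw [if_neg (by omega), if_neg (by omega), if_neg (by omega)]; simp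
  have p5 : ∀ j, j ≠ x → j ≠ x + 1 → j ≠ y → j ≠ y + 1 → φ j = f j := fun j b1 b2 b3 b4 => by
    simp only [φ]; rw [if_neg b1, if_neg b2, if_neg b3, if_neg b4]
  have cs : ∀ i, x ≤ i → i ≤ y + 1 → (i = x ∧ φ i = y + 1) ∨ (i = x + 1 ∧ φ i = y) ∨
      (i = y ∧ φ i = x + 1) ∨ (i = y + 1 ∧ φ i = x) ∨
      (x + 1 < i ∧ i < y ∧ φ i = f i ∧ x + 1 < f i ∧ f i < y) := by
    intro i b1 b2
    by_cases e1 : i = x
    · exact Or.inl ⟨e1, e1 ▸ p1⟩
    by_cases e2 : i = x + 1
    · exact Or.inr (Or.inl ⟨e2, e2 ▸ p2⟩)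
    by_cases e3 : i = y
    · exact Or.inr (Or.inr (Or.inl ⟨e3, e3 ▸ p3⟩))
    by_cases e4 : i = y + 1
    · exact Or.inr (Or.inr (Or.inr (Or.inl ⟨e4, e4 ▸ p4⟩)))
    exact Or.inr (Or.inr (Or.inr (Or.inr ⟨by omega, by omega, p5 i e1 e2 e3 e4,
      ci i (by omega) (by omega)⟩)))
  refine ⟨_, hf.patch (x := x) (y := y + 1) hy φ (fun i b1 b2 => ?_) (fun i b1 b2 => ?_)
    (fun i j b1 b2 b3 => ?_), ?_, ?_, fun j b1 b2 b3 b4 => ?_⟩
  · rcases cs i b1 b2 with e | e | e | e | e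
    · rw [e.1]; omega
    · rw [e.1]; omega
    · rw [e.1]; omega
    · rw [e.1]; omega
    · omega
  · rcases cs i b1 b2 with e | e | e | e | e
    · rw [e.2, p4]; omega
    · rw [e.2, p3]; omega
    · rw [e.2, p2]; omega
    · rw [e.2, p1]; omega
    · have := hf.ne i (by omega)
      rw [e.2.2.1, p5 _ (by omega) (by omega) (by omega) (by omega), hf.inv i (by omega)]
      omega
  · have := hf.nc i j (by have := cs j (by omega) b2; omega) (by omega)
    have := cs i b1 (by omega)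
    have := cs j (by omega) b2
    omega
  · rw [if_pos (by omega), p1]
  · rw [if_pos (by omega), p2]
  · split_ifs
    · exact p5 j b1 b2 b3 b4
    · rfl

lemma ladder_aux {m h k} (hh : PM m h) (h0 : h 0 = m - 1) (u a : ℕ → ℕ)
    (hu : ∀ i, i < k → h (u i) = u i + 1) (ha : ∀ i, i < k → h (a i) = a i + 1)
    (mu : ∀ i, i + 1 < k → u (i + 1) + 2 ≤ u i) (ma : ∀ i, i + 1 < k → a i + 2 ≤ a (i + 1))
    (hc : u 0 + 2 < a 0) (lt : ∀ i, i < k → a i + 2 < m)
    (cu : ∀ i, i < k → Unc h (u i)) (ca : ∀ i, i < k → Unc h (a i)) :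
    ∀ i, i < k → ∃ f, PM m f ∧ (∀ j, j < u i ∨ a i + 1 < j → f j = h j) ∧ f (u i) = a i + 1 ∧
      f (u i + 1) = a i ∧ (∀ j, f j = j + 1 ↔ (h j = j + 1 ∧ ∀ i', i' ≤ i → j ≠ u i' ∧ j ≠ a i')) ∧
      u i + 2 < a i ∧ Gr (OK2 f h) (u i + 1) (a i) (a i) false := by
  have ci : ∀ i, i < k → u i + 2 < a i → ∀ j, u i + 1 < j → j < a i →
      u i + 1 < h j ∧ h j < a i := fun i hi hl j b1 b2 => by
    have := lt i hi
    exact ⟨unc_gt hh h0 (hu i hi) (by omega) (cu i hi) j b1 (by omega), ca i hi j (by omega) b2⟩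
  intro i
  induction i with
  | zero =>
    intro hk
    have := lt 0 hk
    obtain ⟨f, hf, f1, f2, f3⟩ := hh.swap (by omega) (by omega) (hu 0 hk) (ha 0 hk) (ci 0 hk hc)
    have f4 := hf.symm (by omega) f1
    have f5 := hf.symm (by omega) f2
    have g1 := hh.symm (by omega) (hu 0 hk)
    have g2 := hh.symm (by omega) (ha 0 hk)
    refine ⟨f, hf, fun j hj => f3 j (by omega) (by omega) (by omega) (by omega), f1, f2,
      fun j => ?_, hc, ?_⟩
    · by_cases e1 : j = u 0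
      · rw [e1]; exact ⟨by omega, fun e => absurd rfl (e.2 0 le_rfl).1⟩
      by_cases e2 : j = u 0 + 1
      · rw [e2]; exact ⟨by omega, fun e => by omega⟩
      by_cases e3 : j = a 0
      · rw [e3]; exact ⟨by omega, fun e => absurd rfl (e.2 0 le_rfl).2⟩
      by_cases e4 : j = a 0 + 1
      · rw [e4]; exact ⟨by omega, fun e => by omega⟩
      rw [f3 j e1 e2 e3 e4]
      refine ⟨fun e => ⟨e, fun i' hi' => ?_⟩, fun e => e.1⟩
      obtain rfl : i' = 0 := by omega
      exact ⟨e1, e3⟩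
    · refine stretchR0 hf hh (by omega) (a 0 - (u 0 + 1)) _ (by omega) (fun j b1 b2 => ?_)
        (Or.inr (by omega)) (.start _)
      by_cases e : j = u 0 + 1
      · rw [e]; omega
      · rw [f3 j (by omega) e (by omega) (by omega)]
  | succ i ih =>
    intro hk
    obtain ⟨f, hf, e1, e2, e3, e4, e5, G⟩ := ih (by omega)
    have b1 := mu i hk
    have b2 := ma i hk
    have b3 := lt _ hk
    have hci := ci _ hk (by omega)
    obtain ⟨g, hg, g1, g2, g3⟩ := hf.swap (x := u (i + 1)) (y := a (i + 1)) (by omega) (by omega)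
      ((e1 _ (by omega)).trans (hu _ hk)) ((e1 _ (by omega)).trans (ha _ hk)) (fun j c1 c2 => by
        by_cases c3 : j < u i ∨ a i + 1 < j
        · rw [e1 j c3]; exact hci j c1 c2
        · have := hf.under (by omega) e2 j
          have := hf.symm (by omega) e2
          by_cases c4 : j = u i
          · rw [c4]; omega
          by_cases c5 : j = a i + 1
          · rw [c5]; omega
          omega)
    have g4 := hg.symm (by omega) g1
    have g5 := hg.symm (by omega) g2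
    have k1 := hh.symm (by omega) (hu _ hk)
    have k2 := hh.symm (by omega) (ha _ hk)
    refine ⟨g, hg, fun j hj => ?_, g1, g2, fun j => ?_, by omega, ?_⟩
    · rw [g3 j (by omega) (by omega) (by omega) (by omega), e1 j (by omega)]
    · by_cases c1 : j = u (i + 1)
      · rw [c1]; exact ⟨by omega, fun e => absurd rfl (e.2 _ le_rfl).1⟩
      by_cases c2 : j = u (i + 1) + 1
      · rw [c2]; exact ⟨by omega, fun e => by omega⟩
      by_cases c3 : j = a (i + 1)
      · rw [c3]; exact ⟨by omega, fun e => absurd rfl (e.2 _ le_rfl).2⟩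
      by_cases c4 : j = a (i + 1) + 1
      · rw [c4]; exact ⟨by omega, fun e => by omega⟩
      rw [g3 j c1 c2 c3 c4, e4]
      refine ⟨fun e => ⟨e.1, fun i' hi' => ?_⟩, fun e => ⟨e.1, fun i' hi' => e.2 i' (by omega)⟩⟩
      by_cases c5 : i' = i + 1
      · rw [c5]; exact ⟨c1, c3⟩
      · exact e.2 i' (by omega)
    · refine ladder_step (x := u i) (R := a i) hg hh (by omega) (by omega) b2 (by omega) ?_ ?_
        (hu i (by omega)) (ha i (by omega)) g2 (by omega) (fun j c1 c2 => ?_) (fun j c1 c2 => ?_)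
        (ci i (by omega) e5) (G.congr fun j c1 c2 => g3 j (by omega) (by omega) (by omega) (by omega))
      · rw [g3 _ (by omega) (by omega) (by omega) (by omega), e3]
      · rw [g3 _ (by omega) (by omega) (by omega) (by omega), e2]
      · rw [g3 _ (by omega) (by omega) (by omega) (by omega), e1 j (by omega)]
        exact ⟨rfl, (hci j c1 (by omega)).1, cu i (by omega) j (by omega) c2⟩
      · rw [g3 _ (by omega) (by omega) (by omega) (by omega), e1 j (by omega)]

lemma ladder {m h k} (hh : PM m h) (h0 : h 0 = m - 1) (u a : ℕ → ℕ)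
    (hu : ∀ i, i < k → h (u i) = u i + 1) (ha : ∀ i, i < k → h (a i) = a i + 1)
    (mu : ∀ i, i + 1 < k → u (i + 1) + 2 ≤ u i) (ma : ∀ i, i + 1 < k → a i + 2 ≤ a (i + 1))
    (hc : 0 < k → u 0 + 2 < a 0) (pos : ∀ i, i < k → 0 < u i) (lt : ∀ i, i < k → a i + 2 < m)
    (cu : ∀ i, i < k → Unc h (u i)) (ca : ∀ i, i < k → Unc h (a i)) :
    ∃ f, PM m f ∧ f 0 = m - 1 ∧ Reach m 1 f h ∧
      ∀ j, f j = j + 1 ↔ (h j = j + 1 ∧ ∀ i, i < k → j ≠ u i ∧ j ≠ a i) := by
  rcases Nat.eq_zero_or_pos k with rfl | hk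
  · exact ⟨h, hh, h0, .refl fun _ _ => rfl, fun j => by simp⟩
  obtain ⟨i, rfl⟩ : ∃ i, k = i + 1 := ⟨k - 1, by omega⟩
  obtain ⟨f, hf, e1, e2, e3, e4, e5, G⟩ := ladder_aux hh h0 u a hu ha mu ma (hc hk) lt cu ca i
    (by omega)
  have b1 := pos i (by omega)
  have b2 := lt i (by omega)
  have f0 : f 0 = m - 1 := (e1 0 (by omega)).trans h0
  refine ⟨f, hf, f0, Near.reach hh (Gr.near (by omega) hf hh (ladder_step (x := u i) (R := a i)
    hf hh (by omega) (by omega) (by omega) (by omega) e3 e2 (hu i (by omega)) (ha i (by omega)) f0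
    (by omega) (fun j c1 c2 => ?_) (fun j c1 c2 => (e1 j (by omega)).symm) (fun j c1 c2 => ?_) G)),
    fun j => ?_⟩
  · rw [e1 j (by omega)]
    refine ⟨rfl, Nat.pos_of_ne_zero fun e => ?_, cu i (by omega) j c1 c2⟩
    have := hh.symm (by omega) e
    omega
  · exact ⟨unc_gt hh h0 (hu i (by omega)) (by omega) (cu i (by omega)) j c1 (by omega),
      ca i (by omega) j (by omega) c2⟩
  · rw [e4]
    exact ⟨fun e => ⟨e.1, fun i' hi' => e.2 i' (by omega)⟩,
      fun e => ⟨e.1, fun i' hi' => e.2 i' (by omega)⟩⟩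

/-- `k` and `k'` are consecutive open cells. -/
def Cons (op : ℕ → Prop) (k k' : ℕ) : Prop :=
  k < k' ∧ op k ∧ op k' ∧ ∀ i, k < i → i < k' → ¬ op i

lemma exists_next {op : ℕ → Prop} {k q : ℕ} (hk : op k) (hq : op q) (h : k < q) :
    ∃ k', k' ≤ q ∧ Cons op k k' := by
  classical
  have ex : ∃ j, k < j ∧ op j := ⟨q, h, hq⟩
  exact ⟨Nat.find ex, Nat.find_min' ex ⟨h, hq⟩, (Nat.find_spec ex).1, hk, (Nat.find_spec ex).2,
    fun i h1 h2 h3 => Nat.find_min ex h2 ⟨h1, h3⟩⟩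

lemma exists_prev {op : ℕ → Prop} {k p : ℕ} (hk : op k) (hp : op p) (h : p < k) :
    ∃ k', p ≤ k' ∧ Cons op k' k := by
  classical
  have ex : ∃ d, 0 < d ∧ d ≤ k ∧ op (k - d) :=
    ⟨k - p, by omega, by omega, by rwa [show k - (k - p) = p by omega]⟩
  have h1 := Nat.find_spec ex
  have h2 : Nat.find ex ≤ k - p :=
    Nat.find_min' ex ⟨by omega, by omega, by rwa [show k - (k - p) = p by omega]⟩
  refine ⟨k - Nat.find ex, by omega, by omega, h1.2.2, hk, fun i h3 h4 h5 => ?_⟩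
  exact Nat.find_min ex (m := k - i) (by omega)
    ⟨by omega, by omega, by rwa [show k - (k - i) = i by omega]⟩

lemma Cons.uniq_r {op k a b} (h : Cons op k a) (h' : Cons op k b) : a = b := by
  rcases lt_trichotomy a b with e | e | e
  · exact absurd h.2.2.1 (h'.2.2.2 a h.1 e)
  · exact e
  · exact absurd h'.2.2.1 (h.2.2.2 b h'.1 e)

lemma Cons.uniq_l {op k a b} (h : Cons op a k) (h' : Cons op b k) : a = b := by
  rcases lt_trichotomy a b with e | e | e
  · exact absurd h'.2.1 (h.2.2.2 b e h'.1)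
  · exact e
  · exact absurd h.2.1 (h'.2.2.2 a e h.1)

/-- The flower of a set of open cells. -/
structure IsFl (n : ℕ) (op : ℕ → Prop) (F : ℕ → ℕ) : Prop where
  pm : PM (2 * n) F
  f0 : F 0 = 2 * n - 1
  op0 : op 0
  opl : op (n - 1)
  cl : ∀ k, k < n → ¬ op k → F (2 * k) = 2 * k + 1
  cons : ∀ k k', k' < n → Cons op k k' → F (2 * k + 1) = 2 * k'

lemma exists_flower {n : ℕ} (hn : 0 < n) {op : ℕ → Prop} (h0 : op 0) (hl : op (n - 1)) :
    ∃ F, IsFl n op F := by
  classical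
  have e1 : ∀ k, ∃ k', op k → k < n - 1 → k' < n ∧ Cons op k k' := fun k => by
    by_cases h : op k ∧ k < n - 1
    · obtain ⟨k', a, b⟩ := exists_next h.1 hl h.2
      exact ⟨k', fun _ _ => ⟨by omega, b⟩⟩
    · exact ⟨0, fun a b => absurd ⟨a, b⟩ h⟩
  have e2 : ∀ k, ∃ k', op k → 0 < k → Cons op k' k := fun k => by
    by_cases h : op k ∧ 0 < k
    · obtain ⟨k', -, b⟩ := exists_prev h.1 h0 h.2
      exact ⟨k', fun _ _ => b⟩
    · exact ⟨0, fun a b => absurd ⟨a, b⟩ h⟩
  choose nx hnx using e1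
  choose pv hpv using e2
  let F : ℕ → ℕ := fun x => if op (x / 2) then
      (if x % 2 = 1 then (if x / 2 = n - 1 then 0 else 2 * nx (x / 2))
        else (if x / 2 = 0 then 2 * n - 1 else 2 * pv (x / 2) + 1))
    else (if x % 2 = 1 then x - 1 else x + 1)
  have c1 : ∀ k, ¬ op k → F (2 * k) = 2 * k + 1 := fun k hk => by
    simp only [F]; rw [show 2 * k / 2 = k by omega, if_neg hk, if_neg (by omega)]
  have c2 : ∀ k, ¬ op k → F (2 * k + 1) = 2 * k := fun k hk => by
    simp only [F]; rw [show (2 * k + 1) / 2 = k by omega, if_neg hk, if_pos (by omega)]; omega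
  have c3 : ∀ k k', k' < n → Cons op k k' → F (2 * k + 1) = 2 * k' := fun k k' hk hc => by
    have := hc.1
    simp only [F]
    rw [show (2 * k + 1) / 2 = k by omega, if_pos hc.2.1, if_pos (by omega), if_neg (by omega),
      (hnx k hc.2.1 (by omega)).2.uniq_r hc]
  have c4 : ∀ k k', Cons op k k' → F (2 * k') = 2 * k + 1 := fun k k' hc => by
    have := hc.1
    simp only [F]
    rw [show 2 * k' / 2 = k' by omega, if_pos hc.2.2.1, if_neg (by omega), if_neg (by omega),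
      (hpv k' hc.2.2.1 (by omega)).uniq_l hc]
  have c5 : F 0 = 2 * n - 1 := by simp [F, h0]
  have c6 : F (2 * n - 1) = 0 := by
    simp only [F]
    rw [show (2 * n - 1) / 2 = n - 1 by omega, if_pos hl, if_pos (by omega), if_pos rfl]
  have cs : ∀ x, x < 2 * n → (∃ k, ¬ op k ∧ x = 2 * k) ∨ (∃ k, ¬ op k ∧ x = 2 * k + 1) ∨
      (∃ k k', k' < n ∧ Cons op k k' ∧ x = 2 * k + 1) ∨ (∃ k k', Cons op k k' ∧ x = 2 * k') ∨
      x = 0 ∨ x = 2 * n - 1 := by
    intro x hx
    by_cases h : op (x / 2)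
    · by_cases h1 : x % 2 = 1
      · by_cases h2 : x / 2 = n - 1
        · omega
        · exact Or.inr (Or.inr (Or.inl ⟨_, _, (hnx _ h (by omega)).1, (hnx _ h (by omega)).2,
            by omega⟩))
      · by_cases h2 : x / 2 = 0
        · omega
        · exact Or.inr (Or.inr (Or.inr (Or.inl ⟨_, _, hpv _ h (by omega), by omega⟩)))
    · by_cases h1 : x % 2 = 1
      · exact Or.inr (Or.inl ⟨_, h, by omega⟩)
      · exact Or.inl ⟨_, h, by omega⟩
  have hlt : ∀ x, x < 2 * n → F x < 2 * n := by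
    intro x hx
    rcases cs x hx with ⟨k, a, rfl⟩ | ⟨k, a, rfl⟩ | ⟨k, k', a, b, rfl⟩ | ⟨k, k', b, rfl⟩ | rfl | rfl
    · rw [c1 k a]; omega
    · rw [c2 k a]; omega
    · rw [c3 k k' a b]; omega
    · rw [c4 k k' b]; have := b.1; omega
    · omega
    · omega
  refine ⟨F, ⟨hlt, fun x hx => ?_, fun x hx => ?_, fun x y hx hy e => ?_⟩, c5, h0, hl,
    fun k _ => c1 k, c3⟩
  · rcases cs x hx with ⟨k, a, rfl⟩ | ⟨k, a, rfl⟩ | ⟨k, k', a, b, rfl⟩ | ⟨k, k', b, rfl⟩ | rfl | rfl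
    · rw [c1 k a, c2 k a]
    · rw [c2 k a, c1 k a]
    · rw [c3 k k' a b, c4 k k' b]
    · rw [c4 k k' b, c3 k k' (by omega) b]
    · rw [c5, c6]
    · rw [c6, c5]
  · rcases cs x hx with ⟨k, a, rfl⟩ | ⟨k, a, rfl⟩ | ⟨k, k', a, b, rfl⟩ | ⟨k, k', b, rfl⟩ | rfl | rfl
    · rw [c1 k a]; omega
    · rw [c2 k a]; omega
    · rw [c3 k k' a b]; omega
    · rw [c4 k k' b]; omega
    · omega
    · omega
  · have := hlt y hy
    rcases cs x hx with ⟨k, a, rfl⟩ | ⟨k, a, rfl⟩ | ⟨k, k', a, b, rfl⟩ | ⟨k, k', b, rfl⟩ | rfl | rfl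
    · rw [c1 k a] at e; omega
    · rw [c2 k a] at e; omega
    · rw [c3 k k' a b] at e
      have h1 := b.2.2.2 (y / 2) (by omega) (by omega)
      have h2 := c1 _ h1
      have h3 := c2 _ h1
      rcases Nat.mod_two_eq_zero_or_one y with h4 | h4
      · rw [show 2 * (y / 2) = y by omega] at h2; omega
      · rw [show 2 * (y / 2) + 1 = y by omega] at h3; omega
    · rw [c4 k k' b] at e; have := b.1; omega
    · omega
    · omega

end Pool.Agent.P.MP_d44d06_co
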