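import Pool.Agent.P.MP_d44d06_co.Spin

/-! Every matching is within seven moves of the even perimeter matching. -/

namespace Pool.Agent.P.MP_d44d06_co

lemma cell_val (x : ℕ) : (x % 2 = 0 ∧ cell x = x + 1) ∨ (x % 2 = 1 ∧ cell x + 1 = x) := by
  unfold cell; split_ifs <;> omega

lemma cell_pm (n : ℕ) : PM (2 * n) cell := by
  refine ⟨fun i hi => ?_, fun i hi => ?_, fun i hi => ?_, fun i j hi hj => ?_⟩
  · have := cell_val i; omega
  · have := cell_val i; have := cell_val (cell i); omega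
  · have := cell_val i; omega
  · have := cell_val i; have := cell_val j; omega

lemma hub1_val (c x : ℕ) : (2 * c ≤ x ∧ x ≤ 2 * c + 3 ∧ hub1 c x = 4 * c + 3 - x) ∨
    ((x < 2 * c ∨ 2 * c + 3 < x) ∧
      ((x % 2 = 0 ∧ hub1 c x = x + 1) ∨ (x % 2 = 1 ∧ hub1 c x + 1 = x))) := by
  unfold hub1 cell; split_ifs <;> omega

lemma hub1_pm {n c} (hc : c + 2 ≤ n) : PM (2 * n) (hub1 c) := by
  refine ⟨fun i hi => ?_, fun i hi => ?_, fun i hi => ?_, fun i j hi hj => ?_⟩
  · have := hub1_val c i; omega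
  · have := hub1_val c i; have := hub1_val c (hub1 c i); omega
  · have := hub1_val c i; omega
  · have := hub1_val c i; have := hub1_val c j; omega

lemma sh_val (m r i : ℕ) : (i + r < m ∧ sh m r i = i + r) ∨ (m ≤ i + r ∧ sh m r i = i + r - m) := by
  unfold sh; split_ifs <;> omega

/-- Removing a block, seen from an arbitrary starting point. -/
lemma remove_at {m f g s} (hm : 12 ≤ m) (hs : s ≤ m) (hf : PM m f) (hg : PM m g)
    (f0 : f (sh m s 0) = sh m s (m - 1)) (f1 : f (sh m s 1) = sh m s 2)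
    (f3 : f (sh m s 3) = sh m s 4) (f5 : f (sh m s 5) = sh m s 6) (f7 : f (sh m s 7) = sh m s 10)
    (f8 : f (sh m s 8) = sh m s 9) (g7 : g (sh m s 7) = sh m s 8) (g9 : g (sh m s 9) = sh m s 10)
    (go : ∀ j, j < m → j < 7 ∨ 10 < j → g (sh m s j) = f (sh m s j)) : Reach m 2 f g := by
  refine Reach.of_rot hs hf hg ((remove_block hm (hf.rot hs)
    ((rot_eq_iff hf hs (by omega) (by omega)).2 f0) ((rot_eq_iff hf hs (by omega) (by omega)).2 f1)
    ((rot_eq_iff hf hs (by omega) (by omega)).2 f3) ((rot_eq_iff hf hs (by omega) (by omega)).2 f5)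
    ((rot_eq_iff hf hs (by omega) (by omega)).2 f7)
    ((rot_eq_iff hf hs (by omega) (by omega)).2 f8)).congr (fun _ _ => rfl) fun i hi => ?_)
  have a7 := (rot_eq_iff hg hs (by omega) (by omega)).2 g7
  have a9 := (rot_eq_iff hg hs (by omega) (by omega)).2 g9
  have a8 := (hg.rot hs).symm (by omega) a7
  have a10 := (hg.rot hs).symm (by omega) a9
  by_cases c : 7 ≤ i ∧ i ≤ 10
  · rw [if_pos c]
    obtain rfl | rfl | rfl | rfl : i = 7 ∨ i = 8 ∨ i = 9 ∨ i = 10 := by omega
    all_goals simp [*]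
  · rw [if_neg c]
    unfold rot
    rw [go i hi (by omega)]

lemma hub1_reach {n c} (hn : 6 ≤ n) (hc : c + 2 ≤ n) : Reach (2 * n) 2 (hub1 c) cell := by
  obtain ⟨s, hs, hs'⟩ : ∃ s, s ≤ 2 * n ∧ (s + 7 = 2 * c ∨ s + 7 = 2 * c + 2 * n) := by
    by_cases h : 4 ≤ c
    · exact ⟨2 * c - 7, by omega, by omega⟩
    · exact ⟨2 * c + 2 * n - 7, by omega, by omega⟩
  refine remove_at (s := s) (by omega) hs (hub1_pm hc) (cell_pm n) ?_ ?_ ?_ ?_ ?_ ?_ ?_ ?_
    fun j a b => ?_
  · have := sh_val (2 * n) s 0; have := sh_val (2 * n) s (2 * n - 1)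
    have := hub1_val c (sh (2 * n) s 0); omega
  · have := sh_val (2 * n) s 1; have := sh_val (2 * n) s 2
    have := hub1_val c (sh (2 * n) s 1); omega
  · have := sh_val (2 * n) s 3; have := sh_val (2 * n) s 4
    have := hub1_val c (sh (2 * n) s 3); omega
  · have := sh_val (2 * n) s 5; have := sh_val (2 * n) s 6
    have := hub1_val c (sh (2 * n) s 5); omega
  · have := sh_val (2 * n) s 7; have := sh_val (2 * n) s 10
    have := hub1_val c (sh (2 * n) s 7); omega
  · have := sh_val (2 * n) s 8; have := sh_val (2 * n) s 9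
    have := hub1_val c (sh (2 * n) s 8); omega
  · have := sh_val (2 * n) s 7; have := sh_val (2 * n) s 8
    have := cell_val (sh (2 * n) s 7); omega
  · have := sh_val (2 * n) s 9; have := sh_val (2 * n) s 10
    have := cell_val (sh (2 * n) s 9); omega
  · have := sh_val (2 * n) s j
    have := cell_val (sh (2 * n) s j); have := hub1_val c (sh (2 * n) s j); omega

/-- Removing the outer block. -/
lemma hub_outer {n c g} (hn : 6 ≤ n) (hc : n ≤ c ∨ (1 ≤ c ∧ c + 7 ≤ n)) (hg : PM (2 * n) g)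
    (e : ∀ x, x < 2 * n → g x = hub1 c x) : Reach (2 * n) 2 (hub n c) g := by
  obtain ⟨s, hs⟩ : ∃ s, s + 9 = 2 * n := ⟨2 * n - 9, by omega⟩
  refine remove_at (s := s) (by omega) (by omega) (hub_pm (by omega) (by omega)) hg
    ?_ ?_ ?_ ?_ ?_ ?_ ?_ ?_ fun j a b => ?_
  · have := sh_val (2 * n) s 0; have := sh_val (2 * n) s (2 * n - 1)
    have := hub_val n c (sh (2 * n) s 0); omega
  · have := sh_val (2 * n) s 1; have := sh_val (2 * n) s 2
    have := hub_val n c (sh (2 * n) s 1); omega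
  · have := sh_val (2 * n) s 3; have := sh_val (2 * n) s 4
    have := hub_val n c (sh (2 * n) s 3); omega
  · have := sh_val (2 * n) s 5; have := sh_val (2 * n) s 6
    have := hub_val n c (sh (2 * n) s 5); omega
  · have := sh_val (2 * n) s 7; have := sh_val (2 * n) s 10
    have := hub_val n c (sh (2 * n) s 7); omega
  · have := sh_val (2 * n) s 8; have := sh_val (2 * n) s 9
    have := hub_val n c (sh (2 * n) s 8); omega
  · have := sh_val (2 * n) s 7; have := sh_val (2 * n) s 8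
    rw [e _ (by omega)]; have := hub1_val c (sh (2 * n) s 7); omega
  · have := sh_val (2 * n) s 9; have := sh_val (2 * n) s 10
    rw [e _ (by omega)]; have := hub1_val c (sh (2 * n) s 9); omega
  · have := sh_val (2 * n) s j
    rw [e _ (by omega)]
    have := hub1_val c (sh (2 * n) s j); have := hub_val n c (sh (2 * n) s j); omega

/-- Removing the inner block. -/
lemma hub_inner {n c} (hc : 5 ≤ c ∧ c + 3 ≤ n) : Reach (2 * n) 2 (hub n c) (hub n n) := by
  obtain ⟨s, hs⟩ : ∃ s, s + 7 = 2 * c := ⟨2 * c - 7, by omega⟩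
  refine remove_at (s := s) (by omega) (by omega) (hub_pm (by omega) (by omega))
    (hub_pm (by omega) (by omega)) ?_ ?_ ?_ ?_ ?_ ?_ ?_ ?_ fun j a b => ?_
  · have := sh_val (2 * n) s 0; have := sh_val (2 * n) s (2 * n - 1)
    have := hub_val n c (sh (2 * n) s 0); omega
  · have := sh_val (2 * n) s 1; have := sh_val (2 * n) s 2
    have := hub_val n c (sh (2 * n) s 1); omega
  · have := sh_val (2 * n) s 3; have := sh_val (2 * n) s 4
    have := hub_val n c (sh (2 * n) s 3); omega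
  · have := sh_val (2 * n) s 5; have := sh_val (2 * n) s 6
    have := hub_val n c (sh (2 * n) s 5); omega
  · have := sh_val (2 * n) s 7; have := sh_val (2 * n) s 10
    have := hub_val n c (sh (2 * n) s 7); omega
  · have := sh_val (2 * n) s 8; have := sh_val (2 * n) s 9
    have := hub_val n c (sh (2 * n) s 8); omega
  · have := sh_val (2 * n) s 7; have := sh_val (2 * n) s 8
    have := hub_val n n (sh (2 * n) s 7); omega
  · have := sh_val (2 * n) s 9; have := sh_val (2 * n) s 10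
    have := hub_val n n (sh (2 * n) s 9); omega
  · have := sh_val (2 * n) s j
    have := hub_val n n (sh (2 * n) s j); have := hub_val n c (sh (2 * n) s j); omega

lemma hub_none {n c} (hn : 6 ≤ n) (hc : n ≤ c) : Reach (2 * n) 2 (hub n c) cell :=
  hub_outer hn (Or.inl hc) (cell_pm n) fun x hx => by
    have := cell_val x; have := hub1_val c x; omega

lemma hub_reach {n c} (hn : 11 ≤ n) (hc : n ≤ c ∨ (1 ≤ c ∧ c + 3 ≤ n)) :
    Reach (2 * n) 4 (hub n c) cell := by
  by_cases h1 : n ≤ c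
  · exact (hub_none (by omega) h1).mono _ (by omega)
  by_cases h2 : 5 ≤ c
  · exact (hub_inner (by omega)).trans (hub_none (by omega) le_rfl)
  · exact (hub_outer (by omega) (by omega) (hub1_pm (by omega)) fun _ _ => rfl).trans
      (hub1_reach (by omega) (by omega))

lemma exists_arc {m f} (hm : 0 < m) (hf : PM m f) : ∃ i, i + 1 < m ∧ f i = i + 1 := by
  have : ∀ d i, i < m → f i = i + d → 0 < d → ∃ i, i + 1 < m ∧ f i = i + 1 := by
    intro d
    induction d using Nat.strong_induction_on with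
    | _ d ih =>
      intro i hi e hd
      have b := hf.lt i hi
      by_cases c : d = 1
      · exact ⟨i, by omega, by omega⟩
      have a := hf.under hi e (i + 1) (by omega) (by omega)
      have := hf.ne (i + 1) (by omega)
      exact ih (f (i + 1) - (i + 1)) (by omega) (i + 1) (by omega) (by omega) (by omega)
  have h0 := hf.ne 0 hm
  exact this (f 0) 0 hm (by omega) (by omega)

lemma rot_last {m f i} (hf : PM m f) (hi : i + 1 < m) (e : f i = i + 1) :
    rot m (i + 1) f 0 = m - 1 := by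
  rw [rot_eq_iff hf (by omega) (by omega) (by omega)]
  have a := sh_val m (i + 1) 0
  have b := sh_val m (i + 1) (m - 1)
  rw [show sh m (i + 1) 0 = i + 1 by omega, hf.symm (by omega) e]
  omega

lemma reach_frame {n f} (hn : 4 ≤ n) (hh : ∀ c, (n ≤ c ∨ (1 ≤ c ∧ c + 3 ≤ n)) →
    Reach (2 * n) 4 (hub n c) cell) (hf : PM (2 * n) f) (f0 : f 0 = 2 * n - 1) :
    Reach (2 * n) 7 f cell := by
  obtain ⟨op, F, g, hF, hR, -⟩ := to_flower (by omega) hf f0
  obtain ⟨c, hc, hN⟩ := spin hF hn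
  exact hR.trans ((Near.reach (hub_pm (by omega) hc) hN).trans (hh c hc))

theorem reach_cell {n f} (hn : 4 ≤ n) (hh : ∀ c, (n ≤ c ∨ (1 ≤ c ∧ c + 3 ≤ n)) →
    Reach (2 * n) 4 (hub n c) cell) (hh1 : ∀ c, c + 2 ≤ n → Reach (2 * n) 4 (hub1 c) cell)
    (hf : PM (2 * n) f) : Reach (2 * n) 7 f cell := by
  by_cases f0 : f 0 = 2 * n - 1
  · exact reach_frame hn hh hf f0
  by_cases h : ∃ j, 2 * j + 2 < 2 * n ∧ f (2 * j + 1) = 2 * j + 2
  · obtain ⟨j, a, b⟩ := h
    refine Reach.of_rot (r := 2 * j + 1 + 1) (by omega) hf (cell_pm n)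
      ((reach_frame hn hh (hf.rot (by omega)) (rot_last hf a b)).congr (fun _ _ => rfl)
        fun i hi => ?_)
    rw [rot_eq_iff (cell_pm n) (by omega) hi ((cell_pm n).lt i hi)]
    have := cell_val i
    have := sh_val (2 * n) (2 * j + 1 + 1) i
    have := sh_val (2 * n) (2 * j + 1 + 1) (cell i)
    have := cell_val (sh (2 * n) (2 * j + 1 + 1) i)
    omega
  obtain ⟨i, a, b⟩ := exists_arc (by omega) hf
  obtain ⟨j, rfl | rfl⟩ := Nat.even_or_odd' i
  swap
  · exact absurd ⟨j, a, b⟩ h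
  have hr : 2 * j + 1 ≤ 2 * n := by omega
  obtain ⟨op, F, g, hF, hR, ho⟩ := to_flower (by omega) (hf.rot hr) (rot_last hf a b)
  have ho' : ∀ k, k < n → (op k ↔ k ≠ g) := fun k hk => by
    rw [ho]
    refine and_iff_right fun e => ?_
    rw [rot_eq_iff hf hr (by omega) (by omega)] at e
    have s1 := sh_val (2 * n) (2 * j + 1) (2 * k)
    have s2 := sh_val (2 * n) (2 * j + 1) (2 * k + 1)
    by_cases c : sh (2 * n) (2 * j + 1) (2 * k) = 2 * n - 1
    · rw [c, show sh (2 * n) (2 * j + 1) (2 * k + 1) = 0 by omega] at e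
      exact f0 (hf.symm (by omega) e)
    · refine h ⟨sh (2 * n) (2 * j + 1) (2 * k) / 2, by omega, ?_⟩
      rw [show 2 * (sh (2 * n) (2 * j + 1) (2 * k) / 2) + 1 = sh (2 * n) (2 * j + 1) (2 * k) by omega,
        e]
      omega
  have g0 : g ≠ 0 := fun e => (ho' 0 (by omega)).1 hF.op0 e.symm
  have gl : g ≠ n - 1 := fun e => (ho' (n - 1) (by omega)).1 hF.opl e.symm
  have hc := (cell_pm n).rot hr
  have Fv : ∀ x, x < 2 * n → x % 2 = 1 → (x = 2 * n - 1 ∧ F x = 0) ∨ (x / 2 = g ∧ F x + 1 = x) ∨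
      (x / 2 + 1 = g ∧ F x = x + 3 ∧ x + 1 < 2 * n) ∨ (x / 2 ≠ g ∧ x / 2 + 1 ≠ g ∧ F x = x + 1 ∧ x + 1 < 2 * n) := by
    intro x hx h1
    obtain ⟨k, rfl⟩ : ∃ k, x = 2 * k + 1 := ⟨x / 2, by omega⟩
    by_cases c1 : k = n - 1
    · have := hF.pm.symm (by omega) hF.f0
      rw [show 2 * k + 1 = 2 * n - 1 by omega]; omega
    by_cases c2 : k = g
    · have := hF.pm.symm (by omega) (hF.cl k (by omega) fun e => (ho' k (by omega)).1 e c2)
      omega
    by_cases c3 : k + 1 = g
    · have := hF.cons k (k + 2) (by omega) ⟨by omega, (ho' _ (by omega)).2 c2,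
        (ho' _ (by omega)).2 (by omega), fun i a b e => (ho' _ (by omega)).1 e (by omega)⟩
      omega
    · have := (hF.arc_odd k (by omega)).2 ⟨(ho' _ (by omega)).2 c2, (ho' _ (by omega)).2 c3⟩
      omega
  have key : ∀ G, PM (2 * n) G → (∀ x, x < 2 * n → x % 2 = 0 → G x % 2 = 1 ∧
      rot (2 * n) 1 F x = G x) → ∀ x, x < 2 * n → rot (2 * n) 1 F x = G x := by
    intro G hG e x hx
    by_cases c : x % 2 = 0
    · exact (e x hx c).2
    · have p := hF.pm.rot (r := 1) (by omega)
      have q : rot (2 * n) 1 F x % 2 = 0 := by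
        by_contra d
        have a1 := sh_val (2 * n) 1 x
        have a2 := (rot_eq_iff hF.pm (r := 1) (by omega) hx (p.lt x hx)).1 rfl
        have a3 := sh_val (2 * n) 1 (rot (2 * n) 1 F x)
        have a4 := p.lt x hx
        rcases hF.val (sh (2 * n) 1 x) (by omega) with v | ⟨v, -⟩ | ⟨-, k', -, v⟩ | v | v
        · omega
        · omega
        · omega
        · rw [v, hF.f0] at a2; omega
        · omega
      have := (e _ (p.lt x hx) q).2
      rw [p.inv x hx] at this
      exact (hG.symm (p.lt x hx) this.symm).symm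
  have hcc : ∀ i, i < 2 * n → rot (2 * n) 1 (rot (2 * n) (2 * j + 1) cell) i = cell i := by
    intro i hi
    rw [rot_eq_iff hc (by omega) hi ((cell_pm n).lt i hi),
      rot_eq_iff (cell_pm n) hr (sh_lt (by omega) hi) (sh_lt (by omega) ((cell_pm n).lt i hi))]
    have := cell_val i
    have := sh_val (2 * n) 1 i
    have := sh_val (2 * n) 1 (cell i)
    have := sh_val (2 * n) (2 * j + 1) (sh (2 * n) 1 i)
    have := sh_val (2 * n) (2 * j + 1) (sh (2 * n) 1 (cell i))
    have := cell_val (sh (2 * n) (2 * j + 1) (sh (2 * n) 1 i))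
    omega
  refine Reach.of_rot hr hf (cell_pm n) ((hR.trans (Reach.of_rot (r := 1) (k := 4) (by omega) hF.pm
    hc ?_)).mono _ (by omega))
  by_cases c : g < n
  · refine (hh1 (g - 1) (by omega)).congr (key _ (hub1_pm (by omega)) fun x hx d => ?_) hcc
    have a1 := hub1_val (g - 1) x
    rw [rot_eq_iff hF.pm (by omega) hx ((hub1_pm (by omega)).lt x hx)]
    have a2 := sh_val (2 * n) 1 x
    have a3 := sh_val (2 * n) 1 (hub1 (g - 1) x)
    have a4 := Fv (sh (2 * n) 1 x) (by omega) (by omega)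
    omega
  · refine .refl fun i hi => ?_
    rw [hcc i hi]
    refine key _ (cell_pm n) (fun x hx d => ?_) i hi
    have a1 := cell_val x
    rw [rot_eq_iff hF.pm (by omega) hx ((cell_pm n).lt x hx)]
    have a2 := sh_val (2 * n) 1 x
    have a3 := sh_val (2 * n) 1 (cell x)
    have a4 := Fv (sh (2 * n) 1 x) (by omega) (by omega)
    omega

lemma Reach.edist {n k f g} (h : Reach (2 * n) k f g) : ∀ (hf : PM (2 * n) f) (hg : PM (2 * n) g),
    (DCG n IsOneLegged).edist ⟨_, hf.matching⟩ ⟨_, hg.matching⟩ ≤ k := by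
  induction h with
  | refl h =>
    intro hf hg
    have : (⟨_, hf.matching⟩ : {M // IsPlaneMatching M}) = ⟨_, hg.matching⟩ :=
      Subtype.ext (toG_congr h)
    rw [this]; simp
  | @step k f h g h1 h2 _ ih =>
    intro hf hg
    refine (SimpleGraph.edist_triangle (v := ⟨_, h1.matching⟩)).trans ?_
    have : (DCG n IsOneLegged).edist ⟨_, hf.matching⟩ ⟨_, h1.matching⟩ ≤ 1 := by
      rw [SimpleGraph.edist_le_one_iff_adj_or_eq]
      by_cases e : (⟨_, hf.matching⟩ : {M // IsPlaneMatching M}) = ⟨_, h1.matching⟩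
      · exact Or.inr e
      · exact Or.inl ⟨e, h2⟩
    refine (add_le_add this (ih h1 hg)).trans (le_of_eq ?_)
    push_cast; ring

theorem ediam_le {n} (h : ∀ f, PM (2 * n) f → Reach (2 * n) 7 f cell) :
    (DCG n IsOneLegged).ediam ≤ 14 := by
  refine SimpleGraph.ediam_le_of_edist_le fun M N => ?_
  obtain ⟨f, hf, e1⟩ := exists_PM M.2
  obtain ⟨g, hg, e2⟩ := exists_PM N.2
  have a1 : M = ⟨_, hf.matching⟩ := Subtype.ext e1.symm
  have a2 : N = ⟨_, hg.matching⟩ := Subtype.ext e2.symm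
  rw [a1, a2]
  refine (SimpleGraph.edist_triangle (v := ⟨_, (cell_pm n).matching⟩)).trans ?_
  refine (add_le_add ((h f hf).edist hf (cell_pm n))
    (SimpleGraph.edist_comm.trans_le ((h g hg).edist hg (cell_pm n)))).trans ?_
  norm_num

theorem ediam_mono (n : ℕ) : (DCG n IsCaterpillar).ediam ≤ (DCG n IsOneLegged).ediam :=
  SimpleGraph.ediam_anti fun _ _ ⟨h, D, ⟨h1, u, v, p, h2, h3, _⟩, h4⟩ =>
    ⟨h, D, ⟨h1, u, v, p, h2, h3⟩, h4⟩

theorem one_le_ediam {n} (hn : 2 ≤ n) (H) : 1 ≤ (DCG n H).ediam := by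
  rw [Order.one_le_iff_ne_zero]
  intro e
  have s := SimpleGraph.subsingleton_of_ediam_eq_zero e
  have p := hub_pm (n := n) (c := n) hn (Or.inl le_rfl)
  have a : toG (2 * n) cell = toG (2 * n) (hub n n) :=
    congrArg Subtype.val (s.elim ⟨_, (cell_pm n).matching⟩ ⟨_, p.matching⟩)
  have b : (toG (2 * n) cell).Adj ⟨0, by omega⟩ ⟨1, by omega⟩ := ((cell_pm n).adj _ _).2 rfl
  rw [a, p.adj] at b
  have := hub_val n n 0
  simp only at b
  omega

end Pool.Agent.P.MP_d44d06_co
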