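import Pool.Agent.P.MP_d44d06_co.Graph

/-! Basic moves between matchings. -/

namespace Pool.Agent.P.MP_d44d06_co

inductive Reach (m : ℕ) : ℕ → (ℕ → ℕ) → (ℕ → ℕ) → Prop
  | refl {k f g} : (∀ i, i < m → f i = g i) → Reach m k f g
  | step {k f h g} : PM m h → Near m f h → Reach m k h g → Reach m (k + 1) f g

lemma Near.congr {m f g f' g'} (h : Near m f g) (e : ∀ i, i < m → f' i = f i)
    (e' : ∀ i, i < m → g' i = g i) : Near m f' g' := by
  unfold Near at *
  rw [toG_congr e, toG_congr e']; exact h

lemma Reach.congr {m k f g f' g'} (h : Reach m k f g) (e : ∀ i, i < m → f' i = f i)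
    (e' : ∀ i, i < m → g' i = g i) : Reach m k f' g' := by
  induction h generalizing f' with
  | refl h => exact .refl fun i hi => by rw [e i hi, e' i hi, h i hi]
  | step h1 h2 _ ih => exact .step h1 (h2.congr e fun _ _ => rfl) (ih (fun _ _ => rfl) e')

lemma Reach.mono {m k f g} (h : Reach m k f g) : ∀ k', k ≤ k' → Reach m k' f g := by
  induction h with
  | refl h => exact fun _ _ => .refl h
  | step h1 h2 _ ih =>
    intro k' hk
    obtain ⟨j, rfl⟩ : ∃ j, k' = j + 1 := ⟨k' - 1, by omega⟩
    exact .step h1 h2 (ih j (by omega))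

lemma Reach.trans {m k f g} (h : Reach m k f g) : ∀ {k' e}, Reach m k' g e →
    Reach m (k + k') f e := by
  induction h with
  | refl h => exact fun h' => (h'.congr h fun _ _ => rfl).mono _ (by omega)
  | @step k f h g h1 h2 _ ih =>
    intro k' e h'
    rw [show k + 1 + k' = (k + k') + 1 by omega]
    exact .step h1 h2 (ih h')

lemma Near.reach {m f g} (hg : PM m g) (h : Near m f g) : Reach m 1 f g :=
  .step hg h (.refl fun _ _ => rfl)

lemma rot_rot {m r h} (hh : PM m h) (hr : r ≤ m) (i : ℕ) (hi : i < m) :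
    rot m r (rot m (m - r) h) i = h i := by
  unfold rot
  rw [sh_sh' hr hi, show m - (m - r) = r by omega, sh_sh' hr (hh.lt i hi)]

lemma Reach.of_rot {m r k} (hr : r ≤ m) : ∀ {f g}, PM m f → PM m g →
    Reach m k (rot m r f) (rot m r g) → Reach m k f g := by
  induction k with
  | zero =>
    intro f g hf hg h
    cases h with
    | refl h =>
      refine .refl fun i hi => ?_
      have := congrArg (sh m r) (h _ (sh_lt (Nat.sub_le m r) hi))
      unfold rot at this
      rwa [sh_sh hr hi, sh_sh hr (hf.lt i hi), sh_sh hr (hg.lt i hi)] at this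
  | succ k ih =>
    intro f g hf hg h
    cases h with
    | refl h =>
      refine .refl fun i hi => ?_
      have := congrArg (sh m r) (h _ (sh_lt (Nat.sub_le m r) hi))
      unfold rot at this
      rwa [sh_sh hr hi, sh_sh hr (hf.lt i hi), sh_sh hr (hg.lt i hi)] at this
    | step h1 h2 h3 =>
      have p := h1.rot (Nat.sub_le m r)
      exact .step p (Near.of_rot hf p hr (h2.congr (fun _ _ => rfl) (rot_rot h1 hr)))
        (ih p hg (h3.congr (rot_rot h1 hr) fun _ _ => rfl))

lemma rot_eq_iff {m r f i j} (hf : PM m f) (hr : r ≤ m) (hi : i < m) (hj : j < m) :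
    rot m r f i = j ↔ f (sh m r i) = sh m r j := by
  unfold rot
  constructor
  · intro e; rw [← e, sh_sh hr (hf.lt _ (sh_lt hr hi))]
  · intro e; rw [e, sh_sh' hr hj]

lemma PM.symm {m f i j} (h : PM m f) (hi : i < m) (e : f i = j) : f j = i := by
  rw [← e]; exact h.inv i hi

lemma PM.inj {m f i j} (h : PM m f) (hi : i < m) (hj : j < m) (e : f i = f j) : i = j := by
  rw [← h.inv i hi, e, h.inv j hj]

/-- The points under an edge are matched under it. -/
lemma PM.under {m f x y} (h : PM m f) (hx : x < m) (e : f x = y) (i : ℕ) (h1 : x < i)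
    (h2 : i < y) : x < f i ∧ f i < y := by
  have hy : y < m := e ▸ h.lt x hx
  have hi : i < m := by omega
  have a1 := h.nc x i hx hi
  have a2 := h.nc (f i) x (h.lt i hi) hx
  rw [h.inv i hi] at a2
  have a3 : f i ≠ x := fun e' => by have := h.symm hi e'; omega
  have a4 : f i ≠ y := fun e' => by have := h.symm hi e'; have := h.symm hx e; omega
  omega

def Frozen (f g : ℕ → ℕ) (x y : ℕ) : Prop := ∀ i, x ≤ i → i + 1 ≤ y → (f i = i + 1 ↔ g i = i + 1)

lemma ok_arc {f g : ℕ → ℕ} {x} (h1 : f x ≠ x + 1) (h2 : g x ≠ x + 1) : OK2 f g x (x + 1) :=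
  ⟨⟨h1, fun i _ _ => by omega⟩, h2, fun i _ _ => by omega⟩

lemma ok_two_r {m f x} (hf : PM m f) (hx : x + 2 < m) (h : f (x + 1) = x + 2) : OK f x (x + 2) := by
  refine ⟨fun e => ?_, fun i h1 h2 => ?_⟩
  · have := hf.inj (by omega) (by omega) (e.trans h.symm); omega
  · obtain rfl : i = x + 1 := by omega
    omega

lemma ok_two_l {m f x} (hf : PM m f) (hx : x + 2 < m) (h : f x = x + 1) : OK f x (x + 2) := by
  refine ⟨by omega, fun i h1 h2 => ?_⟩
  obtain rfl : i = x + 1 := by omega
  have := hf.symm (by omega) h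
  omega

lemma stretchR0 {m f g a y} (hf : PM m f) (hg : PM m g) (hy : y < m) : ∀ d x, x + d = y →
    Frozen f g x y → (x = y ∨ f x ≠ x + 1) → Gr (OK2 f g) a x x false →
    Gr (OK2 f g) a y y false := by
  intro d
  induction d using Nat.strong_induction_on with
  | _ d ih =>
    intro x hd hz he G
    by_cases e : x = y
    · exact e ▸ G
    have h1 : f x ≠ x + 1 := he.resolve_left e
    have h2 : g x ≠ x + 1 := fun e' => h1 ((hz x le_rfl (by omega)).2 e')
    by_cases e2 : f (x + 1) = x + 2 ∧ x + 2 ≤ y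
    · have e3 : g (x + 1) = x + 2 := (hz (x + 1) (by omega) e2.2).1 e2.1
      have := hf.symm (by omega) e2.1
      exact ih (d - 2) (by omega) (x + 2) (by omega) (fun i h3 h4 => hz i (by omega) h4)
        (Or.inr (by omega)) ((G.legR (ok_arc h1 h2)).spR
          ⟨ok_two_r hf (by omega) e2.1, ok_two_r hg (by omega) e3⟩)
    · exact ih (d - 1) (by omega) (x + 1) (by omega) (fun i h3 h4 => hz i (by omega) h4)
        (by omega) (G.spR (ok_arc h1 h2))

lemma stretchL0 {m f g b y} (hf : PM m f) (hg : PM m g) : ∀ d x, y + d = x → x < m →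
    Frozen f g y x → (x = y ∨ f (x - 1) ≠ x) → Gr (OK2 f g) x b x false →
    Gr (OK2 f g) y b y false := by
  intro d
  induction d using Nat.strong_induction_on with
  | _ d ih =>
    intro x hd hx hz he G
    by_cases e : x = y
    · exact e ▸ G
    obtain ⟨z, rfl⟩ : ∃ z, x = z + 1 := ⟨x - 1, by omega⟩
    have h1 : f z ≠ z + 1 := he.resolve_left e
    have h2 : g z ≠ z + 1 := fun e' => h1 ((hz z (by omega) le_rfl).2 e')
    by_cases e2 : y + 1 ≤ z ∧ f (z - 1) = z
    · obtain ⟨w, rfl⟩ : ∃ w, z = w + 1 := ⟨z - 1, by omega⟩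
      have e1 : f w = w + 1 := e2.2
      have e3 : g w = w + 1 := (hz w (by omega) (by omega)).1 e1
      refine ih (d - 2) (by omega) w (by omega) (by omega) (fun i h3 h4 => hz i h3 (by omega))
        ?_ ((G.legL (ok_arc h1 h2)).spL ⟨ok_two_l hf (by omega) e1, ok_two_l hg (by omega) e3⟩)
      by_cases e4 : w = y
      · exact Or.inl e4
      · refine Or.inr fun e5 => ?_
        have := hf.symm (by omega) e5
        omega
    · exact ih (d - 1) (by omega) z (by omega) (by omega) (fun i h3 h4 => hz i h3 (by omega))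
        (by omega) (G.spL (ok_arc h1 h2))

lemma stretchR {m f g a y} (hf : PM m f) (hg : PM m g) (hy : y < m) (he : f (y - 1) ≠ y) :
    ∀ d x l, x + d = y → Frozen f g x y → Gr (OK2 f g) a x x l →
    ∃ l', Gr (OK2 f g) a y y l' := by
  intro d
  induction d using Nat.strong_induction_on with
  | _ d ih =>
    intro x l hd hz G
    by_cases e : x = y
    · exact ⟨l, e ▸ G⟩
    by_cases h1 : f x = x + 1
    · have h2 : g x = x + 1 := (hz x le_rfl (by omega)).1 h1
      have h3 : x + 1 ≠ y := fun e' => he (by rw [← e']; exact h1)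
      have a1 := hf.symm (by omega) h1
      have a2 := hg.symm (by omega) h2
      exact ih (d - 2) (by omega) (x + 2) _ (by omega) (fun i h3 h4 => hz i (by omega) h4)
        (G.byR ⟨ok_two_l hf (by omega) h1, ok_two_l hg (by omega) h2⟩
          (ok_arc (x := x + 1) (by omega) (by omega)))
    · have h2 : g x ≠ x + 1 := fun e' => h1 ((hz x le_rfl (by omega)).2 e')
      exact ih (d - 1) (by omega) (x + 1) _ (by omega) (fun i h3 h4 => hz i (by omega) h4)
        (G.spR (ok_arc h1 h2))

/-- Matchings with the same perimeter edges, up to the last one, are adjacent. -/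
lemma near_same {m f g} (hm : 0 < m) (hf : PM m f) (hg : PM m g) (hz : Frozen f g 0 (m - 1))
    (h0 : f 0 ≠ 1) : Near m f g :=
  (stretchR0 hf hg (by omega) (m - 1) 0 (by omega) hz (Or.inr h0) (.start 0)).near hm hf hg

lemma near_gap {m f g p} (hm : 2 < m) (hf : PM m f) (hg : PM m g) (f0 : f 0 = m - 1)
    (g0 : g 0 = m - 1) (hp : p + 1 < m) (gp : g p = p + 1)
    (hz : ∀ i, i ≠ p → i + 1 < m → (f i = i + 1 ↔ g i = i + 1)) : Near m f g := by
  have hr : p + 1 ≤ m := by omega
  refine Near.of_rot hf hg hr (near_same (by omega) (hg.rot hr) (hf.rot hr) ?_ ?_).symm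
  · intro i _ hi
    rw [rot_eq_iff hf hr (by omega) (by omega), rot_eq_iff hg hr (by omega) (by omega)]
    by_cases e : i + (p + 1) + 1 = m
    · have e1 : sh m (p + 1) i = m - 1 := by unfold sh; split_ifs <;> omega
      have e2 : sh m (p + 1) (i + 1) = 0 := by unfold sh; split_ifs <;> omega
      rw [e1, e2, hf.symm (by omega) f0, hg.symm (by omega) g0]
    · have e2 : sh m (p + 1) (i + 1) = sh m (p + 1) i + 1 := by unfold sh; split_ifs <;> omega
      have e3 := sh_lt (i := i + 1) hr (by omega)
      rw [e2]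
      exact (hz _ (by unfold sh; split_ifs <;> omega) (by omega)).symm
  · intro e
    rw [rot_eq_iff hg hr (by omega) (by omega)] at e
    have e1 : sh m (p + 1) 0 = p + 1 := by unfold sh; split_ifs <;> omega
    rw [e1, hg.symm (by omega) gp] at e
    unfold sh at e; split_ifs at e <;> omega

/-- Replacing a matching on a closed interval. -/
lemma PM.patch {m f x y} (hf : PM m f) (hy : y < m) (φ : ℕ → ℕ)
    (hc : ∀ i, x ≤ i → i ≤ y → x ≤ f i ∧ f i ≤ y)
    (h1 : ∀ i, x ≤ i → i ≤ y → (x ≤ φ i ∧ φ i ≤ y) ∧ φ (φ i) = i ∧ φ i ≠ i)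
    (h2 : ∀ i j, x ≤ i → j ≤ y → ¬ (i < j ∧ j < φ i ∧ φ i < φ j)) :
    PM m (fun j => if x ≤ j ∧ j ≤ y then φ j else f j) := by
  have out : ∀ i, i < m → ¬ (x ≤ i ∧ i ≤ y) → ¬ (x ≤ f i ∧ f i ≤ y) := fun i hi h h' => by
    have := hc _ h'.1 h'.2
    rw [hf.inv i hi] at this; exact h this
  refine ⟨fun i hi => ?_, fun i hi => ?_, fun i hi => ?_, fun i j hi hj => ?_⟩
  · split_ifs with h
    · have := h1 i h.1 h.2; omega
    · exact hf.lt i hi
  · by_cases h : x ≤ i ∧ i ≤ y
    · have := h1 i h.1 h.2
      simp only [if_pos h, if_pos this.1]; exact this.2.1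
    · simp only [if_neg h, if_neg (out i hi h)]; exact hf.inv i hi
  · split_ifs with h
    · exact (h1 i h.1 h.2).2.2
    · exact hf.ne i hi
  · split_ifs with h h' h'
    · exact h2 i j h.1 h'.2
    · have := h1 i h.1 h.2; omega
    · have := h1 j h'.1 h'.2; have := out i hi h; omega
    · exact hf.nc i j hi hj

lemma Gr.congr {f f' g : ℕ → ℕ} {a b h l} (G : Gr (OK2 f g) a b h l)
    (e : ∀ i, a ≤ i → i ≤ b → f' i = f i) : Gr (OK2 f' g) a b h l := by
  have key : ∀ a b u v, (∀ i, a ≤ i → i ≤ b → f' i = f i) → a ≤ u → u ≤ b → v ≤ b →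
      OK2 f g u v → OK2 f' g u v := fun a b u v e h1 h2 h3 h =>
    ⟨⟨by rw [e u h1 h2]; exact h.1.1, fun i h4 h5 => by
      rw [e i (by omega) (by omega)]; exact h.1.2 i h4 h5⟩, h.2⟩
  induction G with
  | start c => exact .start c
  | legL G hok ih =>
    have := G.cat.1
    exact .legL (ih fun i h1 h2 => e i (by omega) h2) (key _ _ _ _ e le_rfl (by omega) (by omega) hok)
  | legR G hok ih =>
    have := G.cat.1
    exact .legR (ih fun i h1 h2 => e i h1 (by omega)) (key _ _ _ _ e (by omega) (by omega) le_rfl hok)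
  | spL G hok ih =>
    have := G.cat.1
    exact .spL (ih fun i h1 h2 => e i (by omega) h2) (key _ _ _ _ e le_rfl (by omega) (by omega) hok)
  | spR G hok ih =>
    have := G.cat.1
    exact .spR (ih fun i h1 h2 => e i h1 (by omega)) (key _ _ _ _ e (by omega) (by omega) le_rfl hok)
  | byL G hok hok' ih =>
    have := G.cat.1
    exact .byL (ih fun i h1 h2 => e i (by omega) h2) (key _ _ _ _ e le_rfl (by omega) (by omega) hok)
      (key _ _ _ _ e le_rfl (by omega) (by omega) hok')
  | byR G hok hok' ih =>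
    have := G.cat.1
    exact .byR (ih fun i h1 h2 => e i h1 (by omega)) (key _ _ _ _ e (by omega) (by omega) le_rfl hok)
      (key _ _ _ _ e (by omega) (by omega) le_rfl hok')

/-- One level of the ladder move. -/
lemma ladder_step {m f h x R L' R' l} (hf : PM m f) (hh : PM m h) (hR : R' < m)
    (h1 : L' + 1 ≤ x) (h2 : R + 2 ≤ R') (h3 : x + 1 < R) (f1 : f (x + 1) = R) (f2 : f x = R + 1)
    (g1 : h x = x + 1) (g2 : h R = R + 1) (f3 : f L' = R') (g3 : h L' ≠ L' + 1)
    (gl : ∀ j, L' < j → j < x → h j = f j ∧ L' < f j ∧ f j < x)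
    (gr : ∀ j, R + 1 < j → j < R' → h j = f j)
    (ci : ∀ j, x + 1 < j → j < R → x + 1 < h j ∧ h j < R)
    (G : Gr (OK2 f h) (x + 1) R R l) : Gr (OK2 f h) L' R' R' false := by
  have s1 := hf.symm (by omega) f2
  have s2 := hh.symm (by omega) g1
  have s3 := hh.symm (by omega) g2
  have s4 := hf.symm (by omega) f1
  have u := hf.under (by omega) f1
  have G1 : Gr (OK2 f h) x R x false := by
    refine G.spL ⟨⟨by omega, fun i a1 a2 => ?_⟩, by omega, fun i a1 a2 => ?_⟩
    · by_cases e : i = x + 1
      · rw [e]; omega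
      · have := u i (by omega) a2; omega
    · by_cases e : i = x + 1
      · rw [e]; omega
      · have := ci i (by omega) a2; omega
  have G2 : Gr (OK2 f h) L' R L' false := by
    refine stretchL0 hf hh (x - L') x (by omega) (by omega) (fun i a1 a2 => ?_)
      (Or.inr fun e => ?_) G1
    · by_cases e : i = L'
      · rw [e]; omega
      · rw [(gl i (by omega) (by omega)).1]
    · have := hf.symm (by omega) e; omega
  have G3 : Gr (OK2 f h) L' (R + 1) (R + 1) false := by
    refine G2.spR ⟨⟨by omega, fun i a1 a2 => ?_⟩, fun e => ?_, fun i a1 a2 => ?_⟩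
    · have := hf.under (by omega) f2 i
      have := gl i a1
      by_cases e : i = x
      · rw [e]; omega
      · omega
    · have := hh.symm (by omega) e; omega
    · have := gl i a1
      have := ci i
      by_cases e : i = x
      · rw [e]; omega
      by_cases e' : i = x + 1
      · rw [e']; omega
      by_cases e'' : i = R
      · rw [e'']; omega
      · omega
  refine stretchR0 hf hh hR (R' - (R + 1)) (R + 1) (by omega) (fun i a1 a2 => ?_)
    (Or.inr (by omega)) G3
  by_cases e : i = R + 1
  · rw [e]; omega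
  · rw [gr i (by omega) (by omega)]

/-- Removing a block in two moves. -/
lemma remove_block {m f} (hm : 12 ≤ m) (hf : PM m f) (f0 : f 0 = m - 1) (f1 : f 1 = 2)
    (f3 : f 3 = 4) (f5 : f 5 = 6) (f7 : f 7 = 10) (f8 : f 8 = 9) :
    Reach m 2 f (fun j => if 7 ≤ j ∧ j ≤ 10 then (if j % 2 = 1 then j + 1 else j - 1) else f j) := by
  have f2 := hf.symm (by omega) f1
  have f4 := hf.symm (by omega) f3
  have f6 := hf.symm (by omega) f5
  have f10 := hf.symm (by omega) f7
  have f9 := hf.symm (by omega) f8
  have fl := hf.symm (by omega) f0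
  have hg : PM m (fun j => if 1 ≤ j ∧ j ≤ 10 then 11 - j else f j) := by
    refine hf.patch (by omega) (fun j => 11 - j) (fun i a1 a2 => ?_) (fun i a1 a2 => by omega)
      fun i j a1 a2 => by omega
    interval_cases i <;> omega
  have hh : PM m (fun j => if 7 ≤ j ∧ j ≤ 10 then (if j % 2 = 1 then j + 1 else j - 1)
      else f j) := by
    refine hf.patch (by omega) (fun j => if j % 2 = 1 then j + 1 else j - 1) (fun i a1 a2 => ?_)
      (fun i a1 a2 => ?_) fun i j a1 a2 => ?_
    · interval_cases i <;> omega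
    · interval_cases i <;> simp
    · split_ifs <;> omega
  generalize hge : (fun j => if 1 ≤ j ∧ j ≤ 10 then 11 - j else f j) = g at hg
  generalize hhe : (fun j => if 7 ≤ j ∧ j ≤ 10 then (if j % 2 = 1 then j + 1 else j - 1)
      else f j) = h at hh ⊢
  have gi : ∀ j, 1 ≤ j → j ≤ 10 → g j = 11 - j := fun j a1 a2 => by rw [← hge]; simp [a1, a2]
  have go : ∀ j, j = 0 ∨ 10 < j → g j = f j := fun j a => by
    rw [← hge]; exact if_neg (by omega)
  have ho : ∀ j, j < 7 ∨ 10 < j → h j = f j := fun j a => by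
    rw [← hhe]; exact if_neg (by omega)
  have h7 : h 7 = 8 := by rw [← hhe]; simp
  have h9 : h 9 = 10 := by rw [← hhe]; simp
  have g0 : g 0 = m - 1 := (go 0 (by omega)).trans f0
  have g1 := gi 1 (by omega) (by omega)
  have g2 := gi 2 (by omega) (by omega)
  have g3 := gi 3 (by omega) (by omega)
  have g4 := gi 4 (by omega) (by omega)
  have g5 := gi 5 (by omega) (by omega)
  have g6 := gi 6 (by omega) (by omega)
  have g7 := gi 7 (by omega) (by omega)
  have g8 := gi 8 (by omega) (by omega)
  have g9 := gi 9 (by omega) (by omega)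
  have g10 := gi 10 (by omega) (by omega)
  refine .step hg ?_ (Near.reach hh ?_)
  · have G1 : Gr (OK2 f g) 4 7 7 false :=
      (((Gr.start 4).legR (ok_arc (by omega) (by omega))).spR
        ⟨ok_two_r hf (by omega) f5, ok_two_r hg (by omega) g5⟩).spR
        (ok_arc (x := 6) (by omega) (by omega))
    have G2 : Gr (OK2 f g) 3 8 3 false := by
      refine (G1.legR (ok_arc (by omega) (by omega))).spL
        ⟨⟨by omega, fun i a1 a2 => ?_⟩, by omega, fun i a1 a2 => ?_⟩
      · interval_cases i <;> omega
      · interval_cases i <;> omega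
    have G3 : Gr (OK2 f g) 2 10 10 true := by
      refine (G2.spL (ok_arc (by omega) (by omega))).byR
        ⟨⟨by omega, fun i a1 a2 => ?_⟩, by omega, fun i a1 a2 => ?_⟩
        (ok_arc (x := 9) (by omega) (by omega))
      · interval_cases i <;> omega
      · interval_cases i <;> omega
    obtain ⟨l, G4⟩ := stretchR hf hg (y := m - 1) (by omega)
      (fun e => by have := hf.symm (by omega) e; omega) (m - 1 - 10) 10 _ (by omega)
      (fun i a1 a2 => by
        by_cases e : i = 10
        · rw [e]; omega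
        · rw [go i (by omega)]) G3
    refine ((G4.spL (a := 1) ⟨⟨by omega, fun i a1 a2 => ?_⟩, by omega, fun i a1 a2 => ?_⟩).spL
      (ok_arc (by omega) (by omega))).near (by omega) hf hg
    · have := hf.under (by omega) f0 i (by omega) a2; omega
    · have := hg.under (by omega) g0 i (by omega) a2; omega
  · have h1 := ho 1 (by omega)
    have h2 := ho 2 (by omega)
    have h3 := ho 3 (by omega)
    have h4 := ho 4 (by omega)
    have h5 := ho 5 (by omega)
    have h6 := ho 6 (by omega)
    have h0 := ho 0 (by omega)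
    have h8 := hh.symm (by omega) h7
    have G1 : Gr (OK2 g h) 4 7 7 false :=
      (((Gr.start 4).legR (ok_arc (by omega) (by omega))).spR
        ⟨ok_two_r hg (by omega) g5, ok_two_r hh (by omega) (h5.trans f5)⟩).spR
        (ok_arc (x := 6) (by omega) (by omega))
    have G2 : Gr (OK2 g h) 2 9 9 false := by
      refine ladder_step (x := 3) hg hh (by omega) (by omega) (by omega) (by omega) g4
        (by omega) (by omega) h7 (by omega) (by omega) (fun j a1 a2 => by omega)
        (fun j a1 a2 => by omega) (fun j a1 a2 => ?_) G1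
      interval_cases j <;> omega
    have G3 : Gr (OK2 g h) 0 (m - 1) (m - 1) false := by
      refine ladder_step (x := 1) hg hh (by omega) (by omega) (by omega) (by omega) g2
        (by omega) (by omega) h9 g0 (by omega) (fun j a1 a2 => by omega)
        (fun j a1 a2 => by rw [ho j (by omega), go j (by omega)]) (fun j a1 a2 => ?_) G2
      interval_cases j <;> omega
    exact G3.near (by omega) hg hh

end Pool.Agent.P.MP_d44d06_co
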