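import Pool.Agent.P.MP_d44d06_co.Main

/-! Certificates for small numbers of points. -/

namespace Pool.Agent.P.MP_d44d06_co

def okB (f : ℕ → ℕ) (u v : ℕ) : Bool :=
  (f u != v) && (List.range v).all fun i => !(decide (u < i)) || (decide (u ≤ f i) && decide (f i ≤ v))

lemma okB_sound {f u v} (h : okB f u v = true) : OK f u v := by
  simp only [okB, Bool.and_eq_true, bne_iff_ne, List.all_eq_true, List.mem_range, Bool.or_eq_true,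
    Bool.not_eq_true', decide_eq_false_iff_not, decide_eq_true_eq] at h
  exact ⟨h.1, fun i a b => (h.2 i b).resolve_left (by omega)⟩

def pmB (m : ℕ) (f : ℕ → ℕ) : Bool :=
  (List.range m).all fun i => decide (f i < m) && (f (f i) == i) && (f i != i) &&
    (List.range m).all fun j => !(decide (i < j) && decide (j < f i) && decide (f i < f j))

lemma pmB_sound {m f} (h : pmB m f = true) : PM m f := by
  simp only [pmB, Bool.and_eq_true, bne_iff_ne, List.all_eq_true, List.mem_range, beq_iff_eq,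
    Bool.not_eq_true', decide_eq_true_eq, Bool.and_eq_false_iff, decide_eq_false_iff_not] at h
  exact ⟨fun i hi => (h i hi).1.1.1, fun i hi => (h i hi).1.1.2, fun i hi => (h i hi).1.2,
    fun i j hi hj e => by have := (h i hi).2 j hj; omega⟩

def run (ok : ℕ → ℕ → Bool) (m : ℕ) : List ℕ → ℕ → ℕ → ℕ → Bool → Bool
  | [], a, b, _, _ => a == 0 && b == m - 1
  | c :: t, a, b, h, l =>
    if c = 0 then !l && decide (1 ≤ a) && ok (a - 1) h && run ok m t (a - 1) b h true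
    else if c = 1 then !l && ok h (b + 1) && run ok m t a (b + 1) h true
    else if c = 2 then decide (1 ≤ a) && ok (a - 1) h && run ok m t (a - 1) b (a - 1) false
    else if c = 3 then ok h (b + 1) && run ok m t a (b + 1) (b + 1) false
    else if c = 4 then decide (2 ≤ a) && ok (a - 2) h && ok (a - 2) (a - 2 + 1) &&
      run ok m t (a - 2) b (a - 2) true
    else ok h (b + 2) && ok (b + 1) (b + 2) && run ok m t a (b + 2) (b + 2) true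

lemma run_sound {ok : ℕ → ℕ → Prop} {okb : ℕ → ℕ → Bool} (e : ∀ u v, okb u v = true → ok u v)
    (m : ℕ) : ∀ t a b h l, run okb m t a b h l = true → Gr ok a b h l →
    ∃ h l, Gr ok 0 (m - 1) h l := by
  intro t
  induction t with
  | nil =>
    intro a b h l r G
    simp only [run, Bool.and_eq_true, beq_iff_eq] at r
    exact ⟨h, l, r.1 ▸ r.2 ▸ G⟩
  | cons c t ih =>
    intro a b h l r G
    unfold run at r
    split_ifs at r <;>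
      simp only [Bool.and_eq_true, Bool.not_eq_true', decide_eq_true_eq] at r
    · obtain ⟨⟨⟨rfl, r1⟩, r2⟩, r3⟩ := r
      exact ih _ _ _ _ r3 (.legL (by rwa [show a - 1 + 1 = a by omega]) (e _ _ r2))
    · obtain ⟨⟨rfl, r2⟩, r3⟩ := r
      exact ih _ _ _ _ r3 (.legR G (e _ _ r2))
    · obtain ⟨⟨r1, r2⟩, r3⟩ := r
      exact ih _ _ _ _ r3 (.spL (l := l) (by rwa [show a - 1 + 1 = a by omega]) (e _ _ r2))
    · exact ih _ _ _ _ r.2 (.spR G (e _ _ r.1))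
    · obtain ⟨⟨⟨r1, r2⟩, r3⟩, r4⟩ := r
      exact ih _ _ _ _ r4 (.byL (l := l) (by rwa [show a - 2 + 2 = a by omega]) (e _ _ r2)
        (e _ _ r3))
    · exact ih _ _ _ _ r.2 (.byR G (e _ _ r.1.1) (e _ _ r.1.2))

def chk (m : ℕ) : (ℕ → ℕ) → List (List ℕ × ℕ × ℕ × List ℕ) → Bool
  | f, [] => (List.range m).all fun i => f i == cell i
  | f, (g, r, c, s) :: t => pmB m (fun i => g.getD i 0) && decide (r ≤ m) &&
      run (fun u v => okB (rot m r f) u v && okB (rot m r fun i => g.getD i 0) u v) m s c c c false &&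
      chk m (fun i => g.getD i 0) t

lemma chk_sound {m} (hm : 0 < m) : ∀ t f, PM m f → chk m f t = true → Reach m t.length f cell := by
  intro t
  induction t with
  | nil =>
    intro f _ h
    simp only [chk, List.all_eq_true, List.mem_range, beq_iff_eq] at h
    exact .refl h
  | cons x t ih =>
    obtain ⟨g, r, c, s⟩ := x
    intro f hf h
    simp only [chk, Bool.and_eq_true, decide_eq_true_eq] at h
    obtain ⟨⟨⟨h1, h2⟩, h3⟩, h4⟩ := h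
    have hg := pmB_sound h1
    obtain ⟨_, _, G⟩ := run_sound (ok := OK2 (rot m r f) (rot m r fun i => g.getD i 0))
      (fun u v e => by
        rw [Bool.and_eq_true] at e
        exact ⟨okB_sound e.1, okB_sound e.2⟩) m s c c c false h3 (.start c)
    exact .step hg (Near.of_rot hf hg h2 (G.near hm (hf.rot h2) (hg.rot h2))) (ih _ hg h4)

lemma reach_of_chk {m f} (hm : 0 < m) (hf : pmB m f = true) (t) (ht : t.length ≤ 4)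
    (h : chk m f t = true) : Reach m 4 f cell :=
  (chk_sound hm t f (pmB_sound hf) h).mono _ ht

lemma cert_hub1_5_0 : Reach (2 * 5) 4 (hub1 0) cell :=
  reach_of_chk (by norm_num) (by decide +kernel) [([7, 2, 1, 6, 5, 4, 3, 0, 9, 8], 0, 5, [3, 2, 2, 0, 3, 1, 3, 4]),
    ([1, 0, 3, 2, 5, 4, 7, 6, 9, 8], 0, 3, [1, 3, 3, 0, 2, 3, 1, 3, 0])]
    (by decide) (by decide +kernel)

lemma cert_hub1_5_1 : Reach (2 * 5) 4 (hub1 1) cell :=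
  reach_of_chk (by norm_num) (by decide +kernel) [([1, 0, 9, 4, 3, 8, 7, 6, 5, 2], 0, 3, [5, 3, 5, 2, 0, 2, 1]),
    ([1, 0, 3, 2, 5, 4, 7, 6, 9, 8], 1, 4, [1, 3, 3, 0, 2, 3, 1, 4])]
    (by decide) (by decide +kernel)

lemma cert_hub1_5_2 : Reach (2 * 5) 4 (hub1 2) cell :=
  reach_of_chk (by norm_num) (by decide +kernel) [([7, 4, 3, 2, 1, 6, 5, 0, 9, 8], 0, 1, [1, 3, 3, 1, 3, 3, 1, 3, 0]),
    ([1, 0, 3, 2, 5, 4, 7, 6, 9, 8], 3, 4, [1, 3, 3, 0, 2, 3, 1, 4])]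
    (by decide) (by decide +kernel)

lemma cert_hub1_5_3 : Reach (2 * 5) 4 (hub1 3) cell :=
  reach_of_chk (by norm_num) (by decide +kernel) [([1, 0, 9, 6, 5, 4, 3, 8, 7, 2], 0, 3, [1, 3, 3, 1, 2, 0, 2, 5]),
    ([1, 0, 3, 2, 5, 4, 7, 6, 9, 8], 0, 5, [1, 4, 3, 2, 1, 2, 3, 0])]
    (by decide) (by decide +kernel)

lemma cert_hub_5_1 : Reach (2 * 5) 4 (hub 5 1) cell :=
  reach_of_chk (by norm_num) (by decide +kernel) [([9, 2, 1, 4, 3, 8, 7, 6, 5, 0], 0, 2, [1, 3, 3, 1, 2, 2, 5, 3]),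
    ([3, 2, 1, 0, 5, 4, 7, 6, 9, 8], 0, 5, [1, 3, 3, 0, 2, 1, 2, 4]),
    ([7, 2, 1, 6, 5, 4, 3, 0, 9, 8], 0, 5, [3, 2, 2, 0, 3, 1, 3, 4]),
    ([1, 0, 3, 2, 5, 4, 7, 6, 9, 8], 0, 3, [1, 3, 3, 0, 2, 3, 1, 3, 0])]
    (by decide) (by decide +kernel)

lemma cert_hub_5_2 : Reach (2 * 5) 4 (hub 5 2) cell :=
  reach_of_chk (by norm_num) (by decide +kernel) [([9, 4, 3, 2, 1, 6, 5, 8, 7, 0], 0, 2, [5, 3, 5, 2, 0, 5]),
    ([1, 0, 3, 2, 5, 4, 9, 8, 7, 6], 0, 1, [1, 3, 3, 2, 1, 3, 1, 3, 1]),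
    ([1, 0, 9, 6, 5, 4, 3, 8, 7, 2], 0, 3, [1, 3, 3, 1, 2, 0, 2, 5]),
    ([1, 0, 3, 2, 5, 4, 7, 6, 9, 8], 0, 5, [1, 4, 3, 2, 1, 2, 3, 0])]
    (by decide) (by decide +kernel)

lemma cert_hub_5_5 : Reach (2 * 5) 4 (hub 5 5) cell :=
  reach_of_chk (by norm_num) (by decide +kernel) [([9, 4, 3, 2, 1, 8, 7, 6, 5, 0], 0, 3, [1, 4, 3, 1, 3, 3, 0, 3]),
    ([1, 0, 3, 2, 5, 4, 7, 6, 9, 8], 1, 6, [1, 4, 3, 2, 1, 2, 4])]
    (by decide) (by decide +kernel)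

lemma cert_hub_6_1 : Reach (2 * 6) 4 (hub 6 1) cell :=
  reach_of_chk (by norm_num) (by decide +kernel) [([11, 6, 5, 4, 3, 2, 1, 10, 9, 8, 7, 0], 0, 2, [1, 3, 3, 1, 2, 0, 3, 1, 3, 3, 1]),
    ([1, 0, 5, 4, 3, 2, 7, 6, 9, 8, 11, 10], 1, 8, [1, 4, 3, 2, 1, 2, 0, 2, 2, 0]),
    ([1, 0, 11, 10, 9, 8, 7, 6, 5, 4, 3, 2], 0, 7, [3, 2, 2, 0, 3, 3, 4, 2, 3, 0]),
    ([1, 0, 3, 2, 5, 4, 7, 6, 9, 8, 11, 10], 0, 5, [1, 3, 3, 2, 0, 5, 2, 0, 2, 1])]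
    (by decide) (by decide +kernel)

lemma cert_hub_6_2 : Reach (2 * 6) 4 (hub 6 2) cell :=
  reach_of_chk (by norm_num) (by decide +kernel) [([11, 4, 3, 2, 1, 6, 5, 10, 9, 8, 7, 0], 0, 0, [3, 1, 3, 3, 1, 3, 3, 1, 3, 3, 1]),
    ([1, 0, 3, 2, 5, 4, 7, 6, 9, 8, 11, 10], 1, 6, [1, 3, 3, 0, 2, 1, 3, 2, 0, 2, 0])]
    (by decide) (by decide +kernel)

lemma cert_hub_6_3 : Reach (2 * 6) 4 (hub 6 3) cell :=
  reach_of_chk (by norm_num) (by decide +kernel) [([11, 6, 3, 2, 5, 4, 1, 8, 7, 10, 9, 0], 0, 2, [5, 5, 3, 5, 2, 0, 5]),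
    ([1, 0, 3, 2, 5, 4, 7, 6, 11, 10, 9, 8], 0, 1, [1, 3, 1, 3, 3, 2, 1, 3, 1, 3, 1]),
    ([1, 0, 11, 10, 9, 8, 7, 6, 5, 4, 3, 2], 1, 4, [1, 3, 3, 1, 2, 2, 5, 3, 2, 0]),
    ([1, 0, 3, 2, 5, 4, 7, 6, 9, 8, 11, 10], 0, 5, [1, 3, 3, 2, 0, 5, 2, 0, 2, 1])]
    (by decide) (by decide +kernel)

lemma cert_hub_7_1 : Reach (2 * 7) 4 (hub 7 1) cell :=
  reach_of_chk (by norm_num) (by decide +kernel) [([13, 2, 1, 4, 3, 6, 5, 12, 9, 8, 11, 10, 7, 0], 0, 2, [1, 3, 3, 2, 1, 3, 1, 3, 1, 3, 3, 0, 3]),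
    ([1, 0, 5, 4, 3, 2, 11, 10, 9, 8, 7, 6, 13, 12], 2, 7, [1, 4, 3, 3, 2, 1, 3, 2, 1, 2, 4]),
    ([1, 0, 13, 12, 11, 10, 7, 6, 9, 8, 5, 4, 3, 2], 0, 7, [1, 3, 3, 2, 2, 0, 3, 3, 4, 2, 3, 0]),
    ([1, 0, 3, 2, 5, 4, 7, 6, 9, 8, 11, 10, 13, 12], 0, 5, [1, 3, 1, 3, 3, 2, 0, 5, 2, 0, 2, 1])]
    (by decide) (by decide +kernel)

lemma cert_hub_7_2 : Reach (2 * 7) 4 (hub 7 2) cell :=
  reach_of_chk (by norm_num) (by decide +kernel) [([13, 4, 3, 2, 1, 12, 11, 10, 9, 8, 7, 6, 5, 0], 0, 9, [3, 2, 2, 0, 3, 3, 1, 4, 2, 4, 2]),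
    ([1, 0, 3, 2, 5, 4, 7, 6, 9, 8, 11, 10, 13, 12], 1, 8, [1, 4, 3, 1, 4, 3, 2, 1, 2, 4])]
    (by decide) (by decide +kernel)

lemma cert_hub_7_3 : Reach (2 * 7) 4 (hub 7 3) cell :=
  reach_of_chk (by norm_num) (by decide +kernel) [([13, 8, 7, 6, 5, 4, 3, 2, 1, 12, 11, 10, 9, 0], 0, 3, [1, 3, 3, 1, 2, 2, 0, 5, 3, 5, 3]),
    ([1, 0, 3, 2, 5, 4, 7, 6, 9, 8, 11, 10, 13, 12], 3, 8, [1, 4, 3, 2, 1, 2, 3, 3, 2, 0, 2, 0])]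
    (by decide) (by decide +kernel)

lemma cert_hub_7_4 : Reach (2 * 7) 4 (hub 7 4) cell :=
  reach_of_chk (by norm_num) (by decide +kernel) [([13, 4, 3, 2, 1, 8, 7, 6, 5, 10, 9, 12, 11, 0], 0, 5, [1, 3, 3, 1, 2, 0, 5, 4, 2, 3, 1]),
    ([1, 0, 3, 2, 9, 8, 7, 6, 5, 4, 13, 12, 11, 10], 0, 1, [1, 3, 3, 3, 1, 3, 3, 3, 2, 3, 1, 3, 1]),
    ([1, 0, 13, 12, 11, 10, 7, 6, 9, 8, 5, 4, 3, 2], 1, 6, [1, 4, 3, 3, 1, 2, 2, 5, 3, 2, 0]),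
    ([1, 0, 3, 2, 5, 4, 7, 6, 9, 8, 11, 10, 13, 12], 0, 5, [1, 3, 1, 3, 3, 2, 0, 5, 2, 0, 2, 1])]
    (by decide) (by decide +kernel)

lemma cert_hub_8_2 : Reach (2 * 8) 4 (hub 8 2) cell :=
  reach_of_chk (by norm_num) (by decide +kernel) [([15, 4, 3, 2, 1, 14, 13, 12, 9, 8, 11, 10, 7, 6, 5, 0], 0, 9, [1, 3, 1, 2, 2, 0, 3, 3, 1, 4, 2, 4, 2]),
    ([1, 0, 3, 2, 5, 4, 7, 6, 9, 8, 11, 10, 13, 12, 15, 14], 1, 8, [1, 3, 1, 2, 2, 3, 1, 4, 3, 2, 1, 2, 4])]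
    (by decide) (by decide +kernel)

lemma cert_hub_8_3 : Reach (2 * 8) 4 (hub 8 3) cell :=
  reach_of_chk (by norm_num) (by decide +kernel) [([15, 10, 9, 6, 5, 4, 3, 8, 7, 2, 1, 14, 13, 12, 11, 0], 0, 3, [1, 3, 3, 1, 3, 3, 1, 4, 3, 1, 3, 3, 0, 3]),
    ([1, 0, 3, 2, 5, 4, 7, 6, 9, 8, 11, 10, 13, 12, 15, 14], 5, 8, [1, 4, 3, 2, 1, 2, 3, 3, 0, 2, 3, 1, 4])]
    (by decide) (by decide +kernel)

lemma cert_hub_8_4 : Reach (2 * 8) 4 (hub 8 4) cell :=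
  reach_of_chk (by norm_num) (by decide +kernel) [([15, 10, 9, 8, 5, 4, 7, 6, 3, 2, 1, 14, 13, 12, 11, 0], 0, 3, [1, 3, 1, 3, 3, 1, 2, 2, 0, 5, 3, 5, 3]),
    ([1, 0, 3, 2, 5, 4, 7, 6, 9, 8, 11, 10, 13, 12, 15, 14], 3, 10, [1, 4, 3, 2, 1, 2, 3, 3, 2, 0, 2, 0, 2, 0])]
    (by decide) (by decide +kernel)

lemma cert_hub_9_3 : Reach (2 * 9) 4 (hub 9 3) cell :=
  reach_of_chk (by norm_num) (by decide +kernel) [([17, 12, 9, 6, 5, 4, 3, 8, 7, 2, 11, 10, 1, 16, 15, 14, 13, 0], 0, 3, [1, 3, 3, 1, 3, 3, 1, 3, 1, 2, 2, 0, 3, 1, 3, 3, 1]),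
    ([1, 0, 3, 2, 5, 4, 7, 6, 9, 8, 11, 10, 13, 12, 15, 14, 17, 16], 5, 10, [1, 4, 3, 2, 1, 2, 3, 2, 0, 3, 0, 2, 3, 1, 4])]
    (by decide) (by decide +kernel)

lemma cert_hub_9_4 : Reach (2 * 9) 4 (hub 9 4) cell :=
  reach_of_chk (by norm_num) (by decide +kernel) [([17, 12, 11, 10, 9, 8, 7, 6, 5, 4, 3, 2, 1, 16, 15, 14, 13, 0], 0, 5, [1, 3, 3, 1, 2, 2, 5, 3, 2, 2, 0, 3, 1, 3, 3, 1]),
    ([1, 0, 3, 2, 5, 4, 7, 6, 9, 8, 11, 10, 13, 12, 15, 14, 17, 16], 5, 10, [1, 4, 3, 2, 1, 2, 3, 3, 2, 0, 5, 2, 0, 2, 0])]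
    (by decide) (by decide +kernel)

lemma cert_hub_10_4 : Reach (2 * 10) 4 (hub 10 4) cell :=
  reach_of_chk (by norm_num) (by decide +kernel) [([19, 14, 13, 12, 11, 8, 7, 6, 5, 10, 9, 4, 3, 2, 1, 18, 17, 16, 15, 0], 0, 5, [1, 3, 3, 1, 3, 3, 1, 4, 3, 1, 4, 3, 1, 3, 3, 0, 3]),
    ([1, 0, 3, 2, 5, 4, 7, 6, 9, 8, 11, 10, 13, 12, 15, 14, 17, 16, 19, 18], 7, 10, [1, 4, 3, 2, 1, 2, 3, 3, 2, 0, 5, 2, 3, 0, 3, 2, 0])]
    (by decide) (by decide +kernel)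

lemma hub1_reach' {n c} (hn : 5 ≤ n) (hc : c + 2 ≤ n) : Reach (2 * n) 4 (hub1 c) cell := by
  by_cases h : 6 ≤ n
  · exact (hub1_reach h hc).mono _ (by omega)
  obtain rfl : n = 5 := by omega
  obtain rfl | rfl | rfl | rfl : c = 0 ∨ c = 1 ∨ c = 2 ∨ c = 3 := by omega
  exacts [cert_hub1_5_0, cert_hub1_5_1, cert_hub1_5_2, cert_hub1_5_3]

lemma hub_reach' {n c} (hn : 5 ≤ n) (hc : n ≤ c ∨ (1 ≤ c ∧ c + 3 ≤ n)) :
    Reach (2 * n) 4 (hub n c) cell := by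
  by_cases h1 : n ≤ c
  · by_cases h : 6 ≤ n
    · exact (hub_none h h1).mono _ (by omega)
    obtain rfl : n = 5 := by omega
    exact cert_hub_5_5.congr (fun i hi => by
      have := hub_val 5 c i; have := hub_val 5 5 i; omega) fun _ _ => rfl
  by_cases h2 : 5 ≤ c
  · exact (hub_inner (by omega)).trans (hub_none (by omega) le_rfl)
  by_cases h3 : c + 7 ≤ n
  · exact (hub_outer (by omega) (by omega) (hub1_pm (by omega)) fun _ _ => rfl).trans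
      (hub1_reach (by omega) (by omega))
  have : (n = 5 ∧ (c = 1 ∨ c = 2)) ∨ (n = 6 ∧ (c = 1 ∨ c = 2 ∨ c = 3)) ∨
      (n = 7 ∧ (c = 1 ∨ c = 2 ∨ c = 3 ∨ c = 4)) ∨ (n = 8 ∧ (c = 2 ∨ c = 3 ∨ c = 4)) ∨
      (n = 9 ∧ (c = 3 ∨ c = 4)) ∨ (n = 10 ∧ c = 4) := by omega
  rcases this with ⟨rfl, rfl | rfl⟩ | ⟨rfl, rfl | rfl | rfl⟩ | ⟨rfl, rfl | rfl | rfl | rfl⟩ |
    ⟨rfl, rfl | rfl | rfl⟩ | ⟨rfl, rfl | rfl⟩ | ⟨rfl, rfl⟩
  exacts [cert_hub_5_1, cert_hub_5_2, cert_hub_6_1, cert_hub_6_2, cert_hub_6_3, cert_hub_7_1,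
    cert_hub_7_2, cert_hub_7_3, cert_hub_7_4, cert_hub_8_2, cert_hub_8_3, cert_hub_8_4,
    cert_hub_9_3, cert_hub_9_4, cert_hub_10_4]

theorem main (n : ℕ) (hn : 5 ≤ n) :
    1 ≤ (DCG n IsCaterpillar).ediam ∧
      (DCG n IsCaterpillar).ediam ≤ (DCG n IsOneLegged).ediam ∧
      (DCG n IsOneLegged).ediam ≤ 14 :=
  ⟨one_le_ediam (by omega) _, ediam_mono n, ediam_le fun _ hf =>
    reach_cell (by omega) (fun _ => hub_reach' hn) (fun _ => hub1_reach' hn) hf⟩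

end Pool.Agent.P.MP_d44d06_co
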