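import Pool.Agent.P.MP_d44d06_co.Flower

/-! A flower is adjacent to a perimeter matching with at most two blocks. -/

namespace Pool.Agent.P.MP_d44d06_co

def cell (x : ℕ) : ℕ := if x % 2 = 0 then x + 1 else x - 1

def hub1 (c x : ℕ) : ℕ := if 2 * c ≤ x ∧ x ≤ 2 * c + 3 then 4 * c + 3 - x else cell x

def hub (n c x : ℕ) : ℕ := if x ≤ 1 ∨ 2 * n - 2 ≤ x then 2 * n - 1 - x else hub1 c x

lemma hub_val (n c x : ℕ) : ((x ≤ 1 ∨ 2 * n - 2 ≤ x) ∧ hub n c x = 2 * n - 1 - x) ∨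
    (1 < x ∧ x < 2 * n - 2 ∧ ((2 * c ≤ x ∧ x ≤ 2 * c + 3 ∧ hub n c x = 4 * c + 3 - x) ∨
      ((x < 2 * c ∨ 2 * c + 3 < x) ∧
        ((x % 2 = 0 ∧ hub n c x = x + 1) ∨ (x % 2 = 1 ∧ hub n c x + 1 = x))))) := by
  unfold hub hub1 cell; split_ifs <;> omega

lemma hub_pm {n c} (hn : 2 ≤ n) (hc : n ≤ c ∨ (1 ≤ c ∧ c + 3 ≤ n)) : PM (2 * n) (hub n c) := by
  refine ⟨fun i hi => ?_, fun i hi => ?_, fun i hi => ?_, fun i j hi hj => ?_⟩
  · have := hub_val n c i; omega
  · have := hub_val n c i; have := hub_val n c (hub n c i); omega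
  · have := hub_val n c i; omega
  · have := hub_val n c i; have := hub_val n c j; omega

structure Ctx (n : ℕ) (op : ℕ → Prop) (F : ℕ → ℕ) (c : ℕ) : Prop where
  fl : IsFl n op F
  hn : 4 ≤ n
  hc : n ≤ c ∨ (1 ≤ c ∧ c + 3 ≤ n ∧ op c ∧ op (c + 1))

namespace Ctx

variable {n : ℕ} {op : ℕ → Prop} {F : ℕ → ℕ} {c : ℕ} (X : Ctx n op F c)
include X

lemma pmH : PM (2 * n) (hub n c) :=
  hub_pm (by have := X.hn; omega) (X.hc.imp id fun h => ⟨h.1, h.2.1⟩)

lemma ok {u v : ℕ} (k k' : ℕ) (hu : u / 2 = k) (hv : v / 2 = k') (ou : op k) (ov : op k')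
    (h1 : 1 ≤ u) (h2 : u + 1 < v) (h3 : v ≤ 2 * n - 2)
    (h4 : n ≤ c ∨ (u ≤ 2 * c ∧ 2 * c + 3 ≤ v ∧ (u ≠ 2 * c ∨ v ≠ 2 * c + 3)))
    (h5 : u ≠ 1 ∨ v ≠ 2 * n - 2)
    (h6 : u % 2 = 0 ∨ v % 2 = 1 ∨ ∃ j, op j ∧ k < j ∧ j < k') : OK2 F (hub n c) u v := by
  subst hu hv
  have h7 : u % 2 = 0 ∨ v % 2 = 1 ∨ ∀ k', Cons op (u / 2) k' → k' < v / 2 :=
    h6.imp id (Or.imp id fun ⟨j, j1, j2, j3⟩ k' d => lt_of_le_of_lt (d.le_r j1 j2) j3)
  clear h6
  refine ⟨⟨fun e => ?_, fun y a b => ?_⟩, ?_, fun y a b => ?_⟩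
  · rcases X.fl.val u (by omega) with d | ⟨d, k', -, d1, d2⟩ | ⟨d, k', d1, d2⟩ | d | d
    · exact d.1 ou
    · rcases h7 with h | h | h
      · omega
      · omega
      · have := h k' d1; omega
    · have := d1.1; omega
    all_goals omega
  · rcases X.fl.val y (by omega) with d | ⟨d, k', -, d1, d2⟩ | ⟨d, k', d1, d2⟩ | d | d
    · omega
    · have := d1.le_r ov (by omega); have := d1.1; omega
    · have := d1.le_l ou (by omega); have := d1.1; omega
    all_goals omega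
  · have := hub_val n c u; omega
  · have := hub_val n c y; omega

lemma frzS {k k' : ℕ} (h : Cons op k k') (h1 : k + 1 < k') (h2 : k' < n) :
    Frozen F (hub n c) (2 * k + 1) (2 * k') := by
  have hn := X.hn
  have hc : n ≤ c ∨ c + 1 ≤ k ∨ k' ≤ c := by
    rcases X.hc with d | ⟨-, -, d1, d2⟩
    · exact Or.inl d
    · by_cases e : k < c
      · have := h.le_r d1 e; omega
      · by_cases e' : k = c
        · have := h.le_r d2 (by omega); omega
        · omega
  intro i a b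
  have := hub_val n c i
  obtain ⟨j, rfl | rfl⟩ := Nat.even_or_odd' i
  · rw [X.fl.arc_even (by omega) j (by omega)]
    exact iff_of_true (h.2.2.2 j (by omega) (by omega)) (by omega)
  · rw [show 2 * j + 1 + 1 = 2 * j + 2 from rfl, X.fl.arc_odd j (by omega)]
    refine iff_of_false (fun e => ?_) (by omega)
    by_cases e' : j = k
    · exact h.2.2.2 (j + 1) (by omega) (by omega) e.2
    · exact h.2.2.2 j (by omega) (by omega) e.1

lemma travR {a k k' : ℕ} (h : Cons op k k') (h1 : k + 1 < k') (h2 : k' < n)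
    (G : Gr (OK2 F (hub n c)) a (2 * k + 1) (2 * k + 1) false) :
    Gr (OK2 F (hub n c)) a (2 * k') (2 * k') false :=
  stretchR0 X.fl.pm X.pmH (by omega) (2 * k' - (2 * k + 1)) _ (by omega) (X.frzS h h1 h2)
    (Or.inr (by rw [X.fl.cons k k' h2 h]; omega)) G

lemma travL {b k k' : ℕ} (h : Cons op k k') (h1 : k + 1 < k') (h2 : k' < n)
    (G : Gr (OK2 F (hub n c)) (2 * k') b (2 * k') false) :
    Gr (OK2 F (hub n c)) (2 * k + 1) b (2 * k + 1) false :=
  stretchL0 X.fl.pm X.pmH (2 * k' - (2 * k + 1)) _ (by omega) (by omega) (X.frzS h h1 h2)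
    (Or.inr fun e => by
      have a1 := X.fl.pm.symm (by omega) e
      have a2 := X.fl.pm.symm (by omega) (X.fl.cons k k' h2 h)
      omega) G

lemma frzB (h : c < n) : Frozen F (hub n c) (2 * c) (2 * c + 3) := by
  have hn := X.hn
  obtain ⟨d1, d2, d3, d4⟩ := X.hc.resolve_left (by omega)
  intro i a b
  have := hub_val n c i
  obtain rfl | rfl | rfl : i = 2 * c ∨ i = 2 * c + 1 ∨ i = 2 * (c + 1) := by omega
  · rw [X.fl.arc_even (by omega) c h]
    exact iff_of_false (fun e => e d3) (by omega)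
  · rw [show 2 * c + 1 + 1 = 2 * c + 2 from rfl, X.fl.arc_odd c (by omega)]
    exact iff_of_true ⟨d3, d4⟩ (by omega)
  · rw [X.fl.arc_even (by omega) (c + 1) (by omega)]
    exact iff_of_false (fun e => e d4) (by omega)

lemma blkR {a : ℕ} (h : c < n) (G : Gr (OK2 F (hub n c)) a (2 * c) (2 * c) false) :
    Gr (OK2 F (hub n c)) a (2 * c + 3) (2 * c + 3) false := by
  have hn := X.hn
  obtain ⟨d1, d2, d3, d4⟩ := X.hc.resolve_left (by omega)
  exact stretchR0 X.fl.pm X.pmH (by omega) 3 _ rfl (X.frzB h)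
    (Or.inr fun e => (X.fl.arc_even (by omega) c h).1 e d3) G

lemma blkL {b : ℕ} (h : c < n) (G : Gr (OK2 F (hub n c)) (2 * c + 3) b (2 * c + 3) false) :
    Gr (OK2 F (hub n c)) (2 * c) b (2 * c) false := by
  have hn := X.hn
  obtain ⟨d1, d2, d3, d4⟩ := X.hc.resolve_left (by omega)
  exact stretchL0 X.fl.pm X.pmH 3 _ rfl (by omega) (X.frzB h)
    (Or.inr fun e => (X.fl.arc_even (by omega) (c + 1) (by omega)).1 e d4) G

end Ctx

/-- The state of the growth on the points between the open cells `p` and `q`. -/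
def St (ok : ℕ → ℕ → Prop) (op : ℕ → Prop) (p q : ℕ) : Prop :=
  ((∃ j, op j ∧ p < j ∧ j < q) ∧ ((∃ b l, b + 1 = 2 * q ∧ Gr ok (2 * p + 1) b (2 * p + 1) l) ∨
    ∃ l, Gr ok (2 * p + 1 + 1) (2 * q) (2 * q) l)) ∨
  Gr ok (2 * p + 1) (2 * q) (2 * p + 1) false ∨ Gr ok (2 * p + 1) (2 * q) (2 * q) false

namespace Ctx

variable {n : ℕ} {op : ℕ → Prop} {F : ℕ → ℕ} {c : ℕ} (X : Ctx n op F c)
include X

lemma round {p p' q' q : ℕ} (h1 : Cons op p p') (h2 : Cons op q' q) (hq : q < n) (hl : p' < q')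
    (hc : n ≤ c ∨ (p' < c ∧ c + 1 < q')) (S : St (OK2 F (hub n c)) op p' q') :
    St (OK2 F (hub n c)) op p q := by
  have a1 := h1.1
  have a2 := h2.1
  have op1 := h1.2.1
  have op2 := h1.2.2.1
  have op3 := h2.2.1
  have op4 := h2.2.2.1
  have ex : ∃ j, op j ∧ p < j ∧ j < q := ⟨p', op2, a1, by omega⟩
  have S' : Gr (OK2 F (hub n c)) (2 * p' + 1) (2 * q') (2 * p' + 1) false ∨
      Gr (OK2 F (hub n c)) (2 * p' + 1) (2 * q') (2 * q') false := by
    rcases S with ⟨j, ⟨b, l, e, G⟩ | ⟨l, G⟩⟩ | G | G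
    · rw [← e]
      refine Or.inr (G.spR ?_)
      rw [e]
      exact X.ok p' q' (by omega) (by omega) op2 op3 (by omega) (by omega) (by omega) (by omega)
        (by omega) (Or.inr (Or.inr j))
    · exact Or.inl (G.spL (X.ok p' q' (by omega) (by omega) op2 op3 (by omega) (by omega)
        (by omega) (by omega) (by omega) (Or.inr (Or.inr j))))
    · exact Or.inl G
    · exact Or.inr G
  have k1 : OK2 F (hub n c) (2 * p') (2 * q') :=
    X.ok p' q' (by omega) (by omega) op2 op3 (by omega) (by omega) (by omega) (by omega) (by omega)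
      (by omega)
  have k2 : OK2 F (hub n c) (2 * p' + 1) (2 * q' + 1) :=
    X.ok p' q' (by omega) (by omega) op2 op3 (by omega) (by omega) (by omega) (by omega) (by omega)
      (by omega)
  have k3 : OK2 F (hub n c) (2 * p') (2 * q' + 1) :=
    X.ok p' q' (by omega) (by omega) op2 op3 (by omega) (by omega) (by omega) (by omega) (by omega)
      (by omega)
  have k4 : OK2 F (hub n c) (2 * p + 1) (2 * q' + 1) :=
    X.ok p q' (by omega) (by omega) op1 op3 (by omega) (by omega) (by omega) (by omega) (by omega)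
      (by omega)
  have k5 : OK2 F (hub n c) (2 * p') (2 * q) :=
    X.ok p' q (by omega) (by omega) op2 op4 (by omega) (by omega) (by omega) (by omega) (by omega)
      (by omega)
  by_cases t1 : p' = p + 1 <;> by_cases t2 : q = q' + 1
  · subst t1 t2
    rcases S' with G | G
    · exact Or.inl ⟨ex, Or.inr ⟨_, ((G.spR k2).spL k3).spR k5⟩⟩
    · exact Or.inl ⟨ex, Or.inl ⟨_, _, by omega, Gr.spL (a := 2 * p + 1) ((G.spL k1).spR k3) k4⟩⟩
  · subst t1
    rcases S' with G | G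
    · exact Or.inl ⟨ex, Or.inr ⟨_, (X.travR h2 (by omega) hq (G.spR k2)).legL k5⟩⟩
    · exact Or.inl ⟨ex, Or.inr ⟨_, X.travR h2 (by omega) hq ((G.spL k1).spR k3)⟩⟩
  · subst t2
    rcases S' with G | G
    · exact Or.inl ⟨ex, Or.inl ⟨_, _, by omega,
        X.travL h1 (by omega) (by omega) ((G.spR k2).spL k3)⟩⟩
    · exact Or.inl ⟨ex, Or.inl ⟨_, _, by omega,
        (X.travL h1 (by omega) (by omega) (G.spL k1)).legR k4⟩⟩
  · rcases S' with G | G
    · exact Or.inr (Or.inl (X.travL h1 (by omega) (by omega)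
        ((X.travR h2 (by omega) hq (G.spR k2)).spL k5)))
    · exact Or.inr (Or.inr (X.travR h2 (by omega) hq
        ((X.travL h1 (by omega) (by omega) (G.spL k1)).spR k4)))

lemma base2 {p k q : ℕ} (h1 : Cons op p k) (h2 : Cons op k q) (hq : q < n) (hc : n ≤ c)
    (ht : p + 1 < k ∨ k + 1 < q) : St (OK2 F (hub n c)) op p q := by
  have a1 := h1.1
  have a2 := h2.1
  have ex : ∃ j, op j ∧ p < j ∧ j < q := ⟨k, h1.2.2.1, a1, a2⟩
  by_cases t1 : k = p + 1
  · subst t1
    exact Or.inl ⟨ex, Or.inr ⟨_, (X.travR h2 (by omega) hq (.start _)).legL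
      (X.ok (p + 1) q (by omega) (by omega) h2.2.1 h2.2.2.1 (by omega) (by omega) (by omega)
        (by omega) (by omega) (by omega))⟩⟩
  have G := X.travL h1 (by omega) (by omega) (.start _)
  have k1 : OK2 F (hub n c) (2 * p + 1) (2 * k + 1) :=
    X.ok p k (by omega) (by omega) h1.2.1 h1.2.2.1 (by omega) (by omega) (by omega) (by omega)
      (by omega) (by omega)
  by_cases t2 : q = k + 1
  · exact Or.inl ⟨ex, Or.inl ⟨_, _, by omega, G.legR k1⟩⟩
  · exact Or.inr (Or.inr (X.travR h2 (by omega) hq (G.spR k1)))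

lemma base3 {p q : ℕ} (h1 : Cons op p c) (h2 : Cons op (c + 1) q) (hq : q < n) :
    St (OK2 F (hub n c)) op p q := by
  have a1 := h1.1
  have a2 := h2.1
  have ex : ∃ j, op j ∧ p < j ∧ j < q := ⟨c, h1.2.2.1, a1, by omega⟩
  by_cases t1 : c = p + 1 <;> by_cases t2 : q = c + 2
  · refine Or.inl ⟨ex, Or.inl ⟨2 * c + 3, false, by omega, Gr.spL (h := 2 * c + 3) (l := false) ?_
      (X.ok p (c + 1) (by omega) (by omega) h1.2.1 h2.2.1 (by omega) (by omega) (by omega)
        (by omega) (by omega) (by omega))⟩⟩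
    rw [show 2 * p + 1 + 1 = 2 * c by omega]
    exact X.blkR (by omega) (.start _)
  · refine Or.inl ⟨ex, Or.inr ⟨false, ?_⟩⟩
    rw [show 2 * p + 1 + 1 = 2 * c by omega]
    exact X.travR h2 (by omega) hq (X.blkR (by omega) (.start _))
  · exact Or.inl ⟨ex, Or.inl ⟨2 * c + 3, false, by omega,
      X.travL h1 (by omega) (by omega) (X.blkL (by omega) (.start _))⟩⟩
  · exact Or.inr (Or.inr (X.travR h2 (by omega) hq
      (X.blkR (by omega) (X.travR h1 (by omega) (by omega) (.start _)))))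

lemma base4 {p q : ℕ} (h1 : Cons op p c) (h2 : Cons op (c + 2) q) (hq : q < n)
    (ht : c = p + 1 ∨ c + 3 < q) : St (OK2 F (hub n c)) op p q := by
  have a1 := h1.1
  have a2 := h2.1
  have ex : ∃ j, op j ∧ p < j ∧ j < q := ⟨c, h1.2.2.1, a1, by omega⟩
  have G := X.blkL (by omega) (.start _)
  have k1 : OK2 F (hub n c) (2 * c) (2 * c + 3 + 1) :=
    X.ok c (c + 2) (by omega) (by omega) h1.2.2.1 h2.2.1 (by omega) (by omega) (by omega)
      (by omega) (by omega) (by omega)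
  have k2 : OK2 F (hub n c) (2 * p + 1) (2 * c + 3 + 1 + 1) :=
    X.ok p (c + 2) (by omega) (by omega) h1.2.1 h2.2.1 (by omega) (by omega) (by omega)
      (by omega) (by omega) (by omega)
  by_cases t2 : q = c + 3
  · have t1 : c = p + 1 := by omega
    have k3 : OK2 F (hub n c) (2 * c) (2 * c + 3 + 1 + 1) :=
      X.ok c (c + 2) (by omega) (by omega) h1.2.2.1 h2.2.1 (by omega) (by omega) (by omega)
        (by omega) (by omega) (by omega)
    refine Or.inl ⟨ex, Or.inl ⟨2 * c + 3 + 1 + 1, false, by omega, Gr.spL (l := false) ?_ k2⟩⟩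
    rw [show 2 * p + 1 + 1 = 2 * c by omega]
    exact (G.legR k1).spR k3
  have k4 : OK2 F (hub n c) (2 * p + 1) (2 * c + 3 + 1) :=
    X.ok p (c + 2) (by omega) (by omega) h1.2.1 h2.2.1 (by omega) (by omega) (by omega)
      (by omega) (by omega) (Or.inr (Or.inr ⟨c, h1.2.2.1, a1, by omega⟩))
  refine Or.inr (Or.inr (X.travR h2 (by omega) hq ?_))
  by_cases t1 : c = p + 1
  · refine Gr.spR (b := 2 * c + 3 + 1) (Gr.spL (l := false) ?_ k4) k2
    rw [show 2 * p + 1 + 1 = 2 * c by omega]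
    exact G.spR k1
  · exact Gr.spR (b := 2 * c + 3 + 1) ((X.travL h1 (by omega) (by omega) G).legR k4) k2

lemma base4' {p k : ℕ} (hk : c = k + 1) (h1 : Cons op p k) (o1 : op (k + 1)) (o3 : op (k + 3))
    (hq : k + 3 < n) (ht : p + 1 < k) : St (OK2 F (hub n c)) op p (k + 3) := by
  subst hk
  obtain ⟨d1, d2, d3, d4⟩ := X.hc.resolve_left (by omega)
  have G := X.blkR (by omega) (.start _)
  have k1 : OK2 F (hub n (k + 1)) (2 * k + 1) (2 * (k + 1) + 3) :=
    X.ok k (k + 2) (by omega) (by omega) h1.2.2.1 d4 (by omega) (by omega) (by omega)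
      (by omega) (by omega) (by omega)
  have k2 : OK2 F (hub n (k + 1)) (2 * k + 1) (2 * (k + 1) + 3 + 1) :=
    X.ok k (k + 3) (by omega) (by omega) h1.2.2.1 o3 (by omega) (by omega) (by omega)
      (by omega) (by omega) (Or.inr (Or.inr ⟨k + 1, o1, by omega, by omega⟩))
  have k3 : OK2 F (hub n (k + 1)) (2 * k) (2 * (k + 1) + 3 + 1) :=
    X.ok k (k + 3) (by omega) (by omega) h1.2.2.1 o3 (by omega) (by omega) (by omega)
      (by omega) (by omega) (by omega)
  exact Or.inr (Or.inl (X.travL h1 ht (by omega) (((Gr.spL (a := 2 * k + 1) G k1).spR k2).spL k3)))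

lemma finish (S : St (OK2 F (hub n c)) op 0 (n - 1)) : Near (2 * n) F (hub n c) := by
  have hn := X.hn
  have f0 := X.fl.f0
  have g0 : hub n c 0 = 2 * n - 1 := by have := hub_val n c 0; omega
  have g1 : hub n c 1 = 2 * n - 2 := by have := hub_val n c 1; omega
  have g2 : hub n c (2 * n - 2) = 1 := by have := hub_val n c (2 * n - 2); omega
  have f1 := X.fl.pm.under (by omega) f0 1 (by omega) (by omega)
  have f2 := X.fl.pm.under (by omega) f0 (2 * n - 2) (by omega) (by omega)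
  have k1 : OK2 F (hub n c) 0 (0 + 1) := ok_arc (by omega) (by omega)
  have k2 : OK2 F (hub n c) (2 * n - 2) (2 * n - 2 + 1) := ok_arc (by omega) (by omega)
  have k3 : OK2 F (hub n c) 0 (2 * n - 2) :=
    ⟨⟨by omega, fun i a b => by have := X.fl.pm.under (by omega) f0 i a (by omega); omega⟩,
      by omega, fun i a b => by have := X.pmH.under (by omega) g0 i a (by omega); omega⟩
  have k4 : OK2 F (hub n c) 1 (2 * n - 2 + 1) :=
    ⟨⟨by omega, fun i a b => by have := X.fl.pm.under (by omega) f0 i (by omega) (by omega); omega⟩,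
      by omega, fun i a b => by have := X.pmH.under (by omega) g0 i (by omega) (by omega); omega⟩
  have fin : ∀ h l, Gr (OK2 F (hub n c)) 0 (2 * n - 2 + 1) h l → Near (2 * n) F (hub n c) :=
    fun h l G => Gr.near (h := h) (l := l) (by omega) X.fl.pm X.pmH
      (by rwa [show 2 * n - 1 = 2 * n - 2 + 1 by omega])
  unfold St at S
  rw [show 2 * (n - 1) = 2 * n - 2 by omega] at S
  rcases S with ⟨-, ⟨b, l, e, G⟩ | ⟨l, G⟩⟩ | G | G
  · have G1 := (Gr.spL (a := 0) G k1).spR (e ▸ k3)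
    rw [e] at G1
    exact fin _ _ (G1.spR k2)
  · exact fin _ _ (Gr.spL (a := 0) (Gr.spL (a := 1) (G.spR k2) k4) k1)
  · exact fin _ _ ((Gr.legL (a := 0) G k1).spR k4)
  · exact fin _ _ (Gr.spL (a := 0) (G.legR k2) k3)

end Ctx

lemma spin_aux {n op F} (hF : IsFl n op F) (hn : 4 ≤ n) : ∀ d p q, p + d = q → q < n → op p →
    op q → p + 1 < q → (q = p + 2 → ¬ op (p + 1)) →
    ∃ c, Ctx n op F c ∧ (n ≤ c ∨ (p < c ∧ c + 1 < q)) ∧ St (OK2 F (hub n c)) op p q := by
  intro d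
  induction d using Nat.strong_induction_on with
  | _ d ih =>
    intro p q hd hq o1 o2 h1 h2
    have X0 : Ctx n op F n := ⟨hF, hn, Or.inl le_rfl⟩
    obtain ⟨p', a1, c1⟩ := exists_next o1 o2 (by omega)
    obtain ⟨q', a2, c2⟩ := exists_prev o2 o1 (by omega)
    have b1 := c1.1
    have b2 := c2.1
    by_cases e1 : p' = q
    · subst e1
      exact ⟨n, X0, Or.inl le_rfl, Or.inr (Or.inr (X0.travR c1 h1 hq (.start _)))⟩
    have a3 : p' ≤ q' := c2.le_l c1.2.2.1 (by omega)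
    by_cases e2 : p' = q'
    · subst e2
      refine ⟨n, X0, Or.inl le_rfl, X0.base2 c1 c2 hq le_rfl ?_⟩
      by_contra hn'
      exact h2 (by omega) (by rw [show p + 1 = p' by omega]; exact c1.2.2.1)
    by_cases e3 : q' = p' + 1
    · subst e3
      have X : Ctx n op F p' := ⟨hF, hn, Or.inr ⟨by omega, by omega, c1.2.2.1, c2.2.1⟩⟩
      exact ⟨p', X, Or.inr (by omega), X.base3 c1 c2 hq⟩
    by_cases e4 : q' = p' + 2 ∧ op (p' + 1)
    · obtain ⟨rfl, o3⟩ := e4
      by_cases e5 : p' = p + 1 ∨ p' + 3 < q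
      · have X : Ctx n op F p' := ⟨hF, hn, Or.inr ⟨by omega, by omega, c1.2.2.1, o3⟩⟩
        exact ⟨p', X, Or.inr (by omega), X.base4 c1 c2 hq e5⟩
      · have X : Ctx n op F (p' + 1) := ⟨hF, hn, Or.inr ⟨by omega, by omega, o3, c2.2.1⟩⟩
        obtain rfl : q = p' + 3 := by omega
        exact ⟨p' + 1, X, Or.inr (by omega), X.base4' rfl c1 o3 o2 hq (by omega)⟩
    obtain ⟨c, X, hc, S⟩ := ih (q' - p') (by omega) p' q' (by omega) (by omega) c1.2.2.1 c2.2.1
      (by omega) (fun a b => e4 ⟨a, b⟩)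
    exact ⟨c, X, by omega, X.round c1 c2 hq (by omega) hc S⟩

theorem spin {n op F} (hF : IsFl n op F) (hn : 4 ≤ n) :
    ∃ c, (n ≤ c ∨ (1 ≤ c ∧ c + 3 ≤ n)) ∧ Near (2 * n) F (hub n c) := by
  obtain ⟨c, X, hc, S⟩ := spin_aux hF hn (n - 1) 0 (n - 1) (by omega) (by omega) hF.op0 hF.opl
    (by omega) (by omega)
  exact ⟨c, by omega, X.finish S⟩

end Pool.Agent.P.MP_d44d06_co
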